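import Pool.Agent.TH173.RT.Main

/-!
# The limit exists
-/

set_option autoImplicit false
open Finset Filter Topology

namespace Pool.Agent.TH173.RT

theorem TT_le_choose (n k r : ℕ) (hrk : r ≤ k) : TT n k r ≤ n.choose r := by
  have h : Cov k r ((univ : Finset (Fin n)).powersetCard r) := by
    constructor
    · intro e he
      exact (mem_powersetCard.1 he).2
    · intro S hS
      obtain ⟨e, he, hes⟩ := exists_subset_card_eq (show r ≤ S.card by omega)
      exact ⟨e, mem_powersetCard.2 ⟨subset_univ _, hes⟩, he⟩
  have := TT_le h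
  rwa [card_powersetCard, card_univ, Fintype.card_fin] at this

theorem TT_step {n k r : ℕ} (hrk : r ≤ k) :
    (n + 1) * TT n k r ≤ (n + 1 - r) * TT (n + 1) k r := by
  classical
  obtain ⟨E, hE, hc⟩ := TT_spec (n := n + 1) hrk
  have h1 : ∀ v : Fin (n + 1), TT n k r ≤ (E.filter fun e => v ∉ e).card := by
    intro v
    have h2 : Cov k r ((E.filter fun e => v ∉ e).image
        fun e => e.subtype (fun x => x ≠ v)) := by
      constructor
      · intro e he
        obtain ⟨e', he', rfl⟩ := mem_image.1 he
        rw [mem_filter] at he'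
        rw [card_subtype, filter_true_of_mem, hE.1 e' he'.1]
        intro x hx hxv
        rw [hxv] at hx
        exact he'.2 hx
      · intro S hS
        obtain ⟨e, he, heS⟩ := hE.2 (S.map (Function.Embedding.subtype _))
          (by rw [card_map, hS])
        have hv : v ∉ e := by
          intro hve
          have := heS hve
          rw [Finset.mem_map] at this
          obtain ⟨x, _, hx⟩ := this
          exact x.2 hx
        refine ⟨_, mem_image_of_mem _ (mem_filter.2 ⟨he, hv⟩), ?_⟩
        intro x hx
        rw [mem_subtype] at hx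
        have := heS hx
        rw [Finset.mem_map] at this
        obtain ⟨y, hy, hyx⟩ := this
        have : y = x := Subtype.ext hyx
        rw [← this]
        exact hy
    exact (TT_le' (finSuccAboveEquiv v).symm h2).trans card_image_le
  have h2 : ∑ v : Fin (n + 1), (E.filter fun e => v ∉ e).card = E.card * (n + 1 - r) := by
    simp only [card_filter]
    rw [sum_comm]
    have h3 : ∀ e ∈ E, (∑ v : Fin (n + 1), if v ∉ e then 1 else 0) = n + 1 - r := by
      intro e he
      rw [← card_filter]
      have h4 : (univ : Finset (Fin (n + 1))).filter (fun v => v ∉ e) = eᶜ := by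
        ext v
        simp
      rw [h4, card_compl, Fintype.card_fin, hE.1 e he]
    rw [sum_congr rfl h3, sum_const, smul_eq_mul]
  have h3 := sum_le_sum fun v (_ : v ∈ (univ : Finset (Fin (n + 1)))) => h1 v
  rw [sum_const, card_univ, Fintype.card_fin, smul_eq_mul, h2, hc] at h3
  rw [Nat.mul_comm (n + 1 - r)]
  exact h3

theorem ratio_mono {k r : ℕ} (hrk : r ≤ k) {n : ℕ} (hn : r ≤ n) :
    (TT n k r : ℝ) / (n.choose r : ℝ) ≤ (TT (n + 1) k r : ℝ) / ((n + 1).choose r : ℝ) := by
  have p1 : (0 : ℝ) < (n.choose r : ℝ) := by exact_mod_cast Nat.choose_pos hn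
  have p2 : (0 : ℝ) < ((n + 1).choose r : ℝ) := by
    exact_mod_cast Nat.choose_pos (show r ≤ n + 1 by omega)
  rw [div_le_div_iff₀ p1 p2]
  have h1 := TT_step (n := n) hrk
  have h2 := Nat.choose_mul_succ_eq n r
  have h3 : 0 < n + 1 - r := by omega
  have h4 : TT n k r * (n + 1).choose r ≤ TT (n + 1) k r * n.choose r := by
    apply Nat.le_of_mul_le_mul_left _ h3
    calc (n + 1 - r) * (TT n k r * (n + 1).choose r) =
        TT n k r * ((n + 1).choose r * (n + 1 - r)) := by ring
      _ = TT n k r * (n.choose r * (n + 1)) := by rw [h2]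
      _ = ((n + 1) * TT n k r) * n.choose r := by ring
      _ ≤ ((n + 1 - r) * TT (n + 1) k r) * n.choose r := Nat.mul_le_mul_right _ h1
      _ = (n + 1 - r) * (TT (n + 1) k r * n.choose r) := by ring
  exact_mod_cast h4

theorem exists_dens {k r : ℕ} (hrk : r ≤ k) : ∃ t : ℝ, Dens k r t := by
  have hm : Monotone fun n : ℕ => (TT (n + r) k r : ℝ) / ((n + r).choose r : ℝ) := by
    apply monotone_nat_of_le_succ
    intro n
    have := ratio_mono hrk (n := n + r) (by omega)
    have e : n + 1 + r = n + r + 1 := by omega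
    rw [e]
    exact this
  have hb : BddAbove (Set.range fun n : ℕ => (TT (n + r) k r : ℝ) / ((n + r).choose r : ℝ)) := by
    refine ⟨1, ?_⟩
    rintro _ ⟨n, rfl⟩
    have p : (0 : ℝ) < ((n + r).choose r : ℝ) := by
      exact_mod_cast Nat.choose_pos (show r ≤ n + r by omega)
    simp only
    rw [div_le_one p]
    exact_mod_cast TT_le_choose (n + r) k r hrk
  refine ⟨_, (tendsto_add_atTop_iff_nat r).1 (tendsto_atTop_ciSup hm hb)⟩

end Pool.Agent.TH173.RT
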