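import Pool.Agent.TH173.RT.Robust

/-!
# A two-level blow-up, II
-/

set_option autoImplicit false
open Finset Filter Topology

namespace Pool.Agent.TH173.RT

/-- **Two-level blow-up.** -/
theorem blow2 {M N m k s : ℕ} (hs : 2 ≤ s) (hsk : s ≤ k) (T : Finset (Finset (Fin M)))
    (h1 : ∀ e ∈ T, e.card = s) (h2 : ∀ S : Finset (Fin M), S.card = k → ∃ e ∈ T, e ⊆ S)
    (T' : Finset (Finset (Fin N))) (h1' : ∀ e ∈ T', e.card = s)
    (h2' : ∀ S : Finset (Fin N), S.card = k → ∀ P ⊆ S, P.card = 2 → ∃ e ∈ T', P ⊆ e ∧ e ⊆ S) :
    ∃ E : Finset (Finset (Fin M × Fin N × Fin m)), (∀ e ∈ E, e.card = s) ∧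
      (∀ S : Finset (Fin M × Fin N × Fin m), S.card = k → ∃ e ∈ E, e ⊆ S) ∧
      E.card ≤ N * (M * m).choose 2 * (N * (M * m) - 2).choose (s - 2) +
        T.card * (N * m) ^ s + T'.card * (s.choose 2 * (M * (m ^ 2 * (M * m) ^ (s - 2)))) := by
  classical
  -- the pairs with the same second coordinate
  set Q : Finset (Finset (Fin M × Fin N × Fin m)) :=
    (univ : Finset (Fin N)).biUnion fun i =>
      (powersetCard 2 ((univ : Finset (Fin M)) ×ˢ (({i} : Finset (Fin N)) ×ˢ
        (univ : Finset (Fin m))))) with hQ
  have hQc : Q.card ≤ N * (M * m).choose 2 := by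
    refine card_biUnion_le.trans ?_
    simp only [card_powersetCard, card_product, card_singleton, card_univ, Fintype.card_fin,
      one_mul, sum_const, smul_eq_mul]
    exact le_rfl
  set A : Finset (Finset (Fin M × Fin N × Fin m)) :=
    Q.biUnion fun e => ((univ : Finset (Fin M × Fin N × Fin m)).powersetCard s).filter
      fun S => e ⊆ S with hA
  have hAc : A.card ≤ N * (M * m).choose 2 * (N * (M * m) - 2).choose (s - 2) := by
    refine card_biUnion_le.trans ?_
    have h3 : ∀ e ∈ Q, (((univ : Finset (Fin M × Fin N × Fin m)).powersetCard s).filter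
        fun S => e ⊆ S).card = (N * (M * m) - 2).choose (s - 2) := by
      intro e he
      rw [hQ, mem_biUnion] at he
      obtain ⟨i, _, he⟩ := he
      rw [mem_powersetCard] at he
      rw [card_sup (by rw [he.2]; exact hs), he.2, Fintype.card_prod, Fintype.card_prod,
        Fintype.card_fin, Fintype.card_fin, Fintype.card_fin]
      congr 2
      ring
    rw [sum_congr rfl h3, sum_const, smul_eq_mul]
    exact Nat.mul_le_mul_right _ hQc
  -- the transversal sets for the first coordinate
  set B : Finset (Finset (Fin M × Fin N × Fin m)) :=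
    T.biUnion fun t => ((t.pi fun _ => (univ : Finset (Fin N × Fin m))).image
      fun f => t.attach.image fun i => (i.1, f i.1 i.2)) with hB
  have hBc : B.card ≤ T.card * (N * m) ^ s := by
    refine card_biUnion_le.trans ?_
    rw [← smul_eq_mul, ← sum_const]
    apply sum_le_sum
    intro t ht
    refine card_image_le.trans ?_
    rw [card_pi, prod_const, card_univ, Fintype.card_prod, Fintype.card_fin, Fintype.card_fin,
      h1 t ht]
  have hBs : ∀ e ∈ B, e.card = s := by
    intro e he
    rw [hB, mem_biUnion] at he
    obtain ⟨t, ht, he⟩ := he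
    obtain ⟨f, _, rfl⟩ := mem_image.1 he
    rw [card_image_of_injective, card_attach, h1 t ht]
    intro i j hij
    simp only [Prod.mk.injEq] at hij
    exact Subtype.ext hij.1
  -- the sets of the third kind
  set D : Finset (Finset (Fin M × Fin N × Fin m)) :=
    T'.biUnion fun t => (t.powersetCard 2).biUnion fun P => (univ : Finset (Fin M)).biUnion
      fun c => ((t.pi fun a => if a ∈ P then ({c} : Finset (Fin M)) ×ˢ (univ : Finset (Fin m))
        else (univ : Finset (Fin M × Fin m))).image
      fun f => t.attach.image fun i => ((f i.1 i.2).1, i.1, (f i.1 i.2).2)) with hD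
  have hDc : D.card ≤ T'.card * (s.choose 2 * (M * (m ^ 2 * (M * m) ^ (s - 2)))) := by
    refine card_biUnion_le.trans ?_
    rw [← smul_eq_mul, ← sum_const]
    apply sum_le_sum
    intro t ht
    refine card_biUnion_le.trans ?_
    have h3 : (t.powersetCard 2).card = s.choose 2 := by rw [card_powersetCard, h1' t ht]
    rw [← h3, ← smul_eq_mul (t.powersetCard 2).card, ← sum_const]
    apply sum_le_sum
    intro P hP
    refine card_biUnion_le.trans ?_
    have h4 : (univ : Finset (Fin M)).card = M := by rw [card_univ, Fintype.card_fin]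
    conv_rhs => rw [← h4, ← smul_eq_mul (univ : Finset (Fin M)).card, ← sum_const]
    apply sum_le_sum
    intro c _
    refine card_image_le.trans ?_
    rw [card_pi]
    rw [mem_powersetCard] at hP
    rw [← prod_sdiff hP.1]
    have e1 : ∀ x ∈ t \ P, (if x ∈ P then ({c} : Finset (Fin M)) ×ˢ (univ : Finset (Fin m))
        else (univ : Finset (Fin M × Fin m))).card = M * m := by
      intro x hx
      rw [if_neg (mem_sdiff.1 hx).2, card_univ, Fintype.card_prod, Fintype.card_fin,
        Fintype.card_fin]
    have e2 : ∀ x ∈ P, (if x ∈ P then ({c} : Finset (Fin M)) ×ˢ (univ : Finset (Fin m))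
        else (univ : Finset (Fin M × Fin m))).card = m := by
      intro x hx
      rw [if_pos hx, card_product, card_singleton, card_univ, Fintype.card_fin, one_mul]
    rw [prod_congr rfl e1, prod_congr rfl e2, prod_const, prod_const, hP.2]
    have e3 := card_sdiff_add_card_eq_card hP.1
    have e4 : (t \ P).card = s - 2 := by
      rw [h1' t ht, hP.2] at e3
      omega
    rw [e4, h4]
    exact (Nat.mul_comm _ _).le
  have hDs : ∀ e ∈ D, e.card = s := by
    intro e he
    rw [hD, mem_biUnion] at he
    obtain ⟨t, ht, he⟩ := he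
    rw [mem_biUnion] at he
    obtain ⟨P, _, he⟩ := he
    rw [mem_biUnion] at he
    obtain ⟨c, _, he⟩ := he
    obtain ⟨f, _, rfl⟩ := mem_image.1 he
    rw [card_image_of_injective, card_attach, h1' t ht]
    intro i j hij
    simp only [Prod.mk.injEq] at hij
    exact Subtype.ext hij.2.1
  refine ⟨A ∪ B ∪ D, ?_, ?_, ?_⟩
  · intro e he
    rcases mem_union.1 he with h | h
    · rcases mem_union.1 h with h | h
      · rw [hA, mem_biUnion] at h
        obtain ⟨e', _, h⟩ := h
        exact (mem_powersetCard.1 (mem_filter.1 h).1).2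
      · exact hBs e h
    · exact hDs e h
  · intro S hS
    by_cases hinj : Set.InjOn Prod.fst (S : Set (Fin M × Fin N × Fin m))
    · have h3 : (S.image Prod.fst).card = k := by rw [card_image_of_injOn hinj, hS]
      obtain ⟨t, ht, htS⟩ := h2 _ h3
      have h4 : ∀ i : {i // i ∈ t}, ∃ x : Fin N × Fin m, (i.1, x) ∈ S := by
        intro i
        obtain ⟨p, hp, hpi⟩ := mem_image.1 (htS i.2)
        exact ⟨p.2, by rw [← hpi]; exact hp⟩
      choose f hf using h4
      refine ⟨t.attach.image fun i => (i.1, f i),
        mem_union_left _ (mem_union_right _ ?_), ?_⟩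
      · rw [hB, mem_biUnion]
        refine ⟨t, ht, mem_image.2 ⟨fun i hi => f ⟨i, hi⟩, ?_, rfl⟩⟩
        rw [Finset.mem_pi]
        intro i hi
        exact mem_univ _
      · intro p hp
        obtain ⟨i, _, rfl⟩ := mem_image.1 hp
        exact hf i
    · by_cases hinj2 : Set.InjOn (fun p : Fin M × Fin N × Fin m => p.2.1)
        (S : Set (Fin M × Fin N × Fin m))
      · unfold Set.InjOn at hinj
        push Not at hinj
        obtain ⟨p, hp, p', hp', hpp, hne⟩ := hinj
        have hp0 := hp
        have hp0' := hp'
        rw [mem_coe] at hp hp'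
        have h3 : (S.image fun p : Fin M × Fin N × Fin m => p.2.1).card = k := by
          rw [card_image_of_injOn hinj2, hS]
        have hne2 : p.2.1 ≠ p'.2.1 := fun h => hne (hinj2 hp0 hp0' h)
        obtain ⟨t, ht, hPt, htS⟩ := h2' _ h3 {p.2.1, p'.2.1} (by
          intro x hx
          simp only [mem_insert, mem_singleton] at hx
          rcases hx with rfl | rfl
          · exact mem_image_of_mem _ hp
          · exact mem_image_of_mem _ hp') (card_pair hne2)
        have h4 : ∀ i : Fin N, ∃ x : Fin M × Fin m, i ∈ t → (x.1, i, x.2) ∈ S := by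
          intro i
          by_cases hi : i ∈ t
          · obtain ⟨q, hq, hqi⟩ := mem_image.1 (htS hi)
            refine ⟨(q.1, q.2.2), fun _ => ?_⟩
            rw [← hqi]
            exact hq
          · exact ⟨(p.1, p.2.2), fun h => absurd h hi⟩
        choose f hf using h4
        refine ⟨t.attach.image fun i => ((f i.1).1, i.1, (f i.1).2),
          mem_union_right _ ?_, ?_⟩
        · rw [hD, mem_biUnion]
          refine ⟨t, ht, ?_⟩
          rw [mem_biUnion]
          refine ⟨{p.2.1, p'.2.1}, mem_powersetCard.2 ⟨hPt, card_pair hne2⟩, ?_⟩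
          rw [mem_biUnion]
          refine ⟨p.1, mem_univ _, mem_image.2 ⟨fun i _ => f i, ?_, rfl⟩⟩
          rw [Finset.mem_pi]
          intro a ha
          split_ifs with haP
          · rw [mem_product, mem_singleton]
            refine ⟨?_, mem_univ _⟩
            have h5 := hf a ha
            simp only [mem_insert, mem_singleton] at haP
            rcases haP with h6 | h6
            · have h7 : ((f a).1, a, (f a).2) = p :=
                hinj2 (mem_coe.2 h5) hp0 h6
              rw [← h7]
            · have h7 : ((f a).1, a, (f a).2) = p' :=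
                hinj2 (mem_coe.2 h5) hp0' h6
              rw [hpp, ← h7]
          · exact mem_univ _
        · intro q hq
          obtain ⟨i, _, rfl⟩ := mem_image.1 hq
          exact hf i.1 i.2
      · unfold Set.InjOn at hinj2
        push Not at hinj2
        obtain ⟨p, hp, p', hp', hpp, hne⟩ := hinj2
        rw [mem_coe] at hp hp'
        have h3 : ({p, p'} : Finset (Fin M × Fin N × Fin m)) ⊆ S := by
          intro x hx
          simp only [mem_insert, mem_singleton] at hx
          rcases hx with rfl | rfl
          · exact hp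
          · exact hp'
        have h4 : ({p, p'} : Finset (Fin M × Fin N × Fin m)).card = 2 := card_pair hne
        obtain ⟨e, he1, he2, he3⟩ := exists_subsuperset_card_eq h3
          (show ({p, p'} : Finset (Fin M × Fin N × Fin m)).card ≤ s by omega)
          (show s ≤ S.card by omega)
        refine ⟨e, mem_union_left _ (mem_union_left _ ?_), he2⟩
        rw [hA, mem_biUnion]
        refine ⟨{p, p'}, ?_, mem_filter.2 ⟨mem_powersetCard.2 ⟨subset_univ _, he3⟩, he1⟩⟩
        rw [hQ, mem_biUnion]
        refine ⟨p.2.1, mem_univ _, mem_powersetCard.2 ⟨?_, h4⟩⟩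
        intro x hx
        simp only [mem_insert, mem_singleton] at hx
        rw [mem_product, mem_product, mem_singleton]
        rcases hx with rfl | rfl
        · exact ⟨mem_univ _, rfl, mem_univ _⟩
        · exact ⟨mem_univ _, hpp.symm, mem_univ _⟩
  · refine (card_union_le _ _).trans (Nat.add_le_add ?_ hDc)
    exact (card_union_le _ _).trans (Nat.add_le_add hAc hBc)

end Pool.Agent.TH173.RT
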