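import Mathlib

/-!
# Coverings by greedy choice, and blow-ups
-/

set_option autoImplicit false
open Finset

namespace Pool.Agent.TH173.RT

/-- the number of `k`-sets which contain a given set -/
theorem card_sup {V : Type} [DecidableEq V] [Fintype V] {e : Finset V} {k : ℕ}
    (hk : e.card ≤ k) :
    (((univ : Finset V).powersetCard k).filter fun S => e ⊆ S).card =
      (Fintype.card V - e.card).choose (k - e.card) := by
  have h : ((univ : Finset V).powersetCard k).filter (fun S => e ⊆ S) =
      (powersetCard (k - e.card) (univ \ e)).image (fun X => e ∪ X) := by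
    ext S
    simp only [mem_filter, mem_powersetCard, subset_univ, true_and, mem_image]
    constructor
    · rintro ⟨h1, h2⟩
      refine ⟨S \ e, ⟨sdiff_subset_sdiff (subset_univ _) (Subset.refl _), ?_⟩,
        union_sdiff_of_subset h2⟩
      have := card_sdiff_add_card_eq_card h2
      omega
    · rintro ⟨X, ⟨h1, h2⟩, rfl⟩
      refine ⟨?_, subset_union_left⟩
      rw [card_union_of_disjoint, h2]
      · omega
      · exact (disjoint_sdiff (s := e) (t := univ)).mono_right h1
  rw [h, card_image_of_injOn, card_powersetCard]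
  · have := card_sdiff_add_card_eq_card (subset_univ e)
    rw [card_univ] at this
    have h2 : (univ \ e).card = Fintype.card V - e.card := by omega
    rw [h2]
  · intro X hX Y hY hXY
    rw [mem_coe, mem_powersetCard] at hX hY
    have d1 := (disjoint_sdiff (s := e) (t := univ)).mono_right hX.1
    have d2 := (disjoint_sdiff (s := e) (t := univ)).mono_right hY.1
    have e1 : (e ∪ X) \ e = X := union_sdiff_cancel_left d1
    have e2 : (e ∪ Y) \ e = Y := union_sdiff_cancel_left d2
    simp only at hXY
    rw [← e1, ← e2, hXY]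

/-- the averaging lower bound -/
theorem lower {n k r : ℕ} (hrk : r ≤ k) (hkn : k ≤ n) (E : Finset (Finset (Fin n)))
    (h1 : ∀ e ∈ E, e.card = r)
    (h2 : ∀ S : Finset (Fin n), S.card = k → ∃ e ∈ E, e ⊆ S) :
    n.choose r ≤ k.choose r * E.card := by
  have e1 : n.choose k ≤ E.card * (n - r).choose (k - r) := by
    have h3 : (univ : Finset (Fin n)).powersetCard k ⊆
        E.biUnion fun e => ((univ : Finset (Fin n)).powersetCard k).filter fun S => e ⊆ S := by
      intro S hS
      obtain ⟨e, he, heS⟩ := h2 S (mem_powersetCard.1 hS).2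
      exact mem_biUnion.2 ⟨e, he, mem_filter.2 ⟨hS, heS⟩⟩
    have h4 := (card_le_card h3).trans card_biUnion_le
    rw [card_powersetCard, card_univ, Fintype.card_fin] at h4
    have h5 : ∀ e ∈ E, (((univ : Finset (Fin n)).powersetCard k).filter fun S => e ⊆ S).card =
        (n - r).choose (k - r) := by
      intro e he
      rw [card_sup (by rw [h1 e he]; exact hrk), h1 e he, Fintype.card_fin]
    rw [sum_congr rfl h5, sum_const, smul_eq_mul] at h4
    exact h4
  have e2 : n.choose k * k.choose r = n.choose r * (n - r).choose (k - r) :=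
    Nat.choose_mul hrk
  have e3 : 0 < (n - r).choose (k - r) := Nat.choose_pos (by omega)
  apply Nat.le_of_mul_le_mul_right _ e3
  rw [← e2]
  calc n.choose k * k.choose r ≤ (E.card * (n - r).choose (k - r)) * k.choose r :=
        Nat.mul_le_mul_right _ e1
    _ = k.choose r * E.card * (n - r).choose (k - r) := by ring

/-- the uncovered sets -/
def unc {N : ℕ} (k : ℕ) (T : Finset (Finset (Fin N))) : Finset (Finset (Fin N)) :=
  ((univ : Finset (Fin N)).powersetCard k).filter fun S => ∀ e ∈ T, ¬ e ⊆ S

theorem greedy {N k s : ℕ} (hsk : s ≤ k) (hkN : k ≤ N) : ∀ m : ℕ,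
    ∃ T : Finset (Finset (Fin N)), T.card ≤ m ∧ (∀ e ∈ T, e.card = s) ∧
      ((unc k T).card : ℝ) ≤
        (N.choose k : ℝ) * (1 - (k.choose s : ℝ) / (N.choose s : ℝ)) ^ m := by
  intro m
  induction m with
  | zero =>
    refine ⟨∅, by simp, by simp, ?_⟩
    simp [unc]
  | succ m ih =>
    obtain ⟨T, hT, hTs, hu⟩ := ih
    have hpos : (0 : ℝ) < (N.choose s : ℝ) := by
      exact_mod_cast Nat.choose_pos (hsk.trans hkN)
    have hle : (k.choose s : ℝ) ≤ (N.choose s : ℝ) := by
      exact_mod_cast Nat.choose_le_choose s hkN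
    -- double counting
    have h1 : ∑ e ∈ (univ : Finset (Fin N)).powersetCard s,
        (((unc k T).filter fun S => e ⊆ S).card : ℝ) = (unc k T).card * (k.choose s : ℝ) := by
      have h2 : ∑ e ∈ (univ : Finset (Fin N)).powersetCard s,
          ((unc k T).filter fun S => e ⊆ S).card = (unc k T).card * k.choose s := by
        simp only [card_filter]
        rw [sum_comm]
        have h3 : ∀ S ∈ unc k T, (∑ e ∈ (univ : Finset (Fin N)).powersetCard s,
            if e ⊆ S then 1 else 0) = k.choose s := by
          intro S hS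
          rw [← card_filter]
          have h4 : ((univ : Finset (Fin N)).powersetCard s).filter (fun e => e ⊆ S) =
              S.powersetCard s := by
            ext e
            simp only [mem_filter, mem_powersetCard, subset_univ, true_and]
            tauto
          rw [h4, card_powersetCard]
          unfold unc at hS
          rw [mem_filter, mem_powersetCard] at hS
          rw [hS.1.2]
        rw [sum_congr rfl h3, sum_const, smul_eq_mul]
      exact_mod_cast h2
    obtain ⟨e, he, hle'⟩ : ∃ e ∈ (univ : Finset (Fin N)).powersetCard s,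
        ((unc k T).card * (k.choose s : ℝ) / (N.choose s : ℝ)) ≤
          (((unc k T).filter fun S => e ⊆ S).card : ℝ) := by
      apply exists_le_of_sum_le
      · rw [powersetCard_nonempty, card_univ, Fintype.card_fin]
        exact hsk.trans hkN
      · rw [sum_const, card_powersetCard, card_univ, Fintype.card_fin, nsmul_eq_mul, h1]
        rw [mul_div_cancel₀ _ hpos.ne']
    refine ⟨insert e T, (card_insert_le _ _).trans (by omega), ?_, ?_⟩
    · intro e' he'
      rcases mem_insert.1 he' with rfl | h
      · exact (mem_powersetCard.1 he).2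
      · exact hTs e' h
    · have h3 : unc k (insert e T) = (unc k T).filter fun S => ¬ e ⊆ S := by
        ext S
        unfold unc
        simp only [mem_filter, mem_insert, forall_eq_or_imp]
        tauto
      have h4 := card_filter_add_card_filter_not (s := unc k T) (fun S => e ⊆ S)
      have h5 : ((unc k (insert e T)).card : ℝ) =
          (unc k T).card - (((unc k T).filter fun S => e ⊆ S).card : ℝ) := by
        rw [h3]
        have : (((unc k T).filter fun S => e ⊆ S).card : ℝ) +
            (((unc k T).filter fun S => ¬ e ⊆ S).card : ℝ) = (unc k T).card := by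
          exact_mod_cast h4
        linarith
      rw [h5, pow_succ]
      have h6 : (0 : ℝ) ≤ 1 - (k.choose s : ℝ) / (N.choose s : ℝ) := by
        rw [sub_nonneg, div_le_one hpos]
        exact hle
      calc ((unc k T).card : ℝ) - (((unc k T).filter fun S => e ⊆ S).card : ℝ) ≤
          (unc k T).card - (unc k T).card * (k.choose s : ℝ) / (N.choose s : ℝ) := by linarith
        _ = (unc k T).card * (1 - (k.choose s : ℝ) / (N.choose s : ℝ)) := by ring
        _ ≤ ((N.choose k : ℝ) * (1 - (k.choose s : ℝ) / (N.choose s : ℝ)) ^ m) *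
            (1 - (k.choose s : ℝ) / (N.choose s : ℝ)) := mul_le_mul_of_nonneg_right hu h6
        _ = _ := by ring

/-- **Covering lemma.** -/
theorem cover {N k s : ℕ} (hsk : s ≤ k) (hkN : k ≤ N) :
    ∃ T : Finset (Finset (Fin N)), (∀ e ∈ T, e.card = s) ∧
      (∀ S : Finset (Fin N), S.card = k → ∃ e ∈ T, e ⊆ S) ∧
      (T.card : ℝ) ≤ (N.choose s : ℝ) / (k.choose s : ℝ) *
        (1 + Real.log ((N - s).choose (k - s))) + 1 := by
  classical
  have hNs : (0 : ℝ) < (N.choose s : ℝ) := by
    exact_mod_cast Nat.choose_pos (hsk.trans hkN)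
  have hks : (0 : ℝ) < (k.choose s : ℝ) := by
    exact_mod_cast Nat.choose_pos hsk
  have hc1 : (1 : ℝ) ≤ ((N - s).choose (k - s) : ℝ) := by
    exact_mod_cast Nat.choose_pos (show k - s ≤ N - s by omega)
  have hlog : 0 ≤ Real.log ((N - s).choose (k - s)) := Real.log_nonneg hc1
  have hle : (k.choose s : ℝ) ≤ (N.choose s : ℝ) := by
    exact_mod_cast Nat.choose_le_choose s hkN
  set q : ℝ := (k.choose s : ℝ) / (N.choose s : ℝ) with hq
  have hq0 : 0 < q := div_pos hks hNs
  have hq1 : q ≤ 1 := by rw [hq, div_le_one hNs]; exact hle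
  set m : ℕ := ⌈Real.log ((N - s).choose (k - s)) / q⌉₊ with hm
  obtain ⟨T, hTm, hTs, hu⟩ := greedy hsk hkN m
  have hm1 : Real.log ((N - s).choose (k - s)) / q ≤ m := Nat.le_ceil _
  have hm2 : (m : ℝ) ≤ Real.log ((N - s).choose (k - s)) / q + 1 :=
    (Nat.ceil_lt_add_one (div_nonneg hlog hq0.le)).le
  have hpow : (1 - q) ^ m ≤ 1 / ((N - s).choose (k - s) : ℝ) := by
    have h1 : (1 - q) ^ m ≤ (Real.exp (-q)) ^ m :=
      pow_le_pow_left₀ (by linarith) (Real.one_sub_le_exp_neg q) m
    have h2 : (Real.exp (-q)) ^ m = Real.exp (-(q * m)) := by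
      rw [← Real.exp_nat_mul]
      congr 1
      ring
    have h3 : Real.log ((N - s).choose (k - s)) ≤ q * m := by
      rw [div_le_iff₀ hq0] at hm1
      linarith
    rw [h2] at h1
    refine h1.trans ?_
    rw [one_div, ← Real.exp_log (show (0 : ℝ) < ((N - s).choose (k - s) : ℝ) by linarith),
      ← Real.exp_neg]
    exact Real.exp_le_exp.2 (by linarith)
  have hunc : ((unc k T).card : ℝ) ≤ 1 / q := by
    refine hu.trans ?_
    have h1 : (N.choose k : ℝ) * (1 - q) ^ m ≤
        (N.choose k : ℝ) * (1 / ((N - s).choose (k - s) : ℝ)) :=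
      mul_le_mul_of_nonneg_left hpow (Nat.cast_nonneg _)
    refine h1.trans (le_of_eq ?_)
    have h2 : (N.choose k : ℝ) * (k.choose s : ℝ) =
        (N.choose s : ℝ) * ((N - s).choose (k - s) : ℝ) := by
      exact_mod_cast Nat.choose_mul (n := N) hsk
    rw [hq, one_div_div, mul_one_div, div_eq_div_iff (by linarith) hks.ne']
    exact h2
  have hpick : ∀ S : Finset (Fin N), ∃ e : Finset (Fin N), S.card = k → e ⊆ S ∧ e.card = s := by
    intro S
    by_cases h : S.card = k
    · obtain ⟨e, he, hes⟩ := exists_subset_card_eq (show s ≤ S.card by omega)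
      exact ⟨e, fun _ => ⟨he, hes⟩⟩
    · exact ⟨∅, fun h' => absurd h' h⟩
  choose pick hpick using hpick
  refine ⟨T ∪ (unc k T).image pick, ?_, ?_, ?_⟩
  · intro e he
    rcases mem_union.1 he with h | h
    · exact hTs e h
    · obtain ⟨S, hS, rfl⟩ := mem_image.1 h
      unfold unc at hS
      rw [mem_filter, mem_powersetCard] at hS
      exact (hpick S hS.1.2).2
  · intro S hS
    by_cases h : ∃ e ∈ T, e ⊆ S
    · obtain ⟨e, he, heS⟩ := h
      exact ⟨e, mem_union_left _ he, heS⟩
    · push Not at h
      refine ⟨pick S, mem_union_right _ (mem_image_of_mem _ ?_), (hpick S hS).1⟩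
      unfold unc
      rw [mem_filter, mem_powersetCard]
      exact ⟨⟨subset_univ _, hS⟩, h⟩
  · have h1 : ((T ∪ (unc k T).image pick).card : ℝ) ≤ T.card + (unc k T).card := by
      have := (card_union_le T ((unc k T).image pick)).trans
        (Nat.add_le_add_left card_image_le T.card)
      exact_mod_cast this
    have h2 : (T.card : ℝ) ≤ m := by exact_mod_cast hTm
    have h3 : (N.choose s : ℝ) / (k.choose s : ℝ) = 1 / q := by rw [hq, one_div_div]
    rw [h3]
    have h4 : 1 / q * (1 + Real.log ((N - s).choose (k - s))) =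
        1 / q + Real.log ((N - s).choose (k - s)) / q := by ring
    rw [h4]
    linarith

/-- **Blow-up.** -/
theorem blow {N m k s : ℕ} (hs : 2 ≤ s) (hsk : s ≤ k) (T : Finset (Finset (Fin N)))
    (h1 : ∀ e ∈ T, e.card = s) (h2 : ∀ S : Finset (Fin N), S.card = k → ∃ e ∈ T, e ⊆ S) :
    ∃ E : Finset (Finset (Fin N × Fin m)), (∀ e ∈ E, e.card = s) ∧
      (∀ S : Finset (Fin N × Fin m), S.card = k → ∃ e ∈ E, e ⊆ S) ∧
      E.card ≤ N * m.choose 2 * (N * m - 2).choose (s - 2) + T.card * m ^ s := by
  classical
  -- the pairs in one part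
  set Q : Finset (Finset (Fin N × Fin m)) :=
    (univ : Finset (Fin N)).biUnion fun i =>
      (powersetCard 2 (({i} : Finset (Fin N)) ×ˢ (univ : Finset (Fin m)))) with hQ
  have hQc : Q.card ≤ N * m.choose 2 := by
    refine card_biUnion_le.trans ?_
    simp only [card_powersetCard, card_product, card_singleton, card_univ, Fintype.card_fin,
      one_mul, sum_const, smul_eq_mul]
    exact le_rfl
  set A : Finset (Finset (Fin N × Fin m)) :=
    Q.biUnion fun e => ((univ : Finset (Fin N × Fin m)).powersetCard s).filter fun S => e ⊆ S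
    with hA
  have hAc : A.card ≤ N * m.choose 2 * (N * m - 2).choose (s - 2) := by
    refine card_biUnion_le.trans ?_
    have h3 : ∀ e ∈ Q, (((univ : Finset (Fin N × Fin m)).powersetCard s).filter
        fun S => e ⊆ S).card = (N * m - 2).choose (s - 2) := by
      intro e he
      rw [hQ, mem_biUnion] at he
      obtain ⟨i, _, he⟩ := he
      rw [mem_powersetCard] at he
      rw [card_sup (by rw [he.2]; exact hs), he.2, Fintype.card_prod, Fintype.card_fin,
        Fintype.card_fin]
    rw [sum_congr rfl h3, sum_const, smul_eq_mul]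
    exact Nat.mul_le_mul_right _ hQc
  -- the transversal sets
  set B : Finset (Finset (Fin N × Fin m)) :=
    T.biUnion fun t => ((t.pi fun _ => (univ : Finset (Fin m))).image
      fun f => t.attach.image fun i => (i.1, f i.1 i.2)) with hB
  have hBc : B.card ≤ T.card * m ^ s := by
    refine card_biUnion_le.trans ?_
    rw [← smul_eq_mul, ← sum_const]
    apply sum_le_sum
    intro t ht
    refine card_image_le.trans ?_
    rw [card_pi, prod_const, card_univ, Fintype.card_fin, h1 t ht]
  have hBs : ∀ e ∈ B, e.card = s := by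
    intro e he
    rw [hB, mem_biUnion] at he
    obtain ⟨t, ht, he⟩ := he
    obtain ⟨f, _, rfl⟩ := mem_image.1 he
    rw [card_image_of_injective, card_attach, h1 t ht]
    intro i j hij
    simp only [Prod.mk.injEq] at hij
    exact Subtype.ext hij.1
  refine ⟨A ∪ B, ?_, ?_, (card_union_le _ _).trans (Nat.add_le_add hAc hBc)⟩
  · intro e he
    rcases mem_union.1 he with h | h
    · rw [hA, mem_biUnion] at h
      obtain ⟨e', _, h⟩ := h
      exact (mem_powersetCard.1 (mem_filter.1 h).1).2
    · exact hBs e h
  · intro S hS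
    by_cases hinj : Set.InjOn Prod.fst (S : Set (Fin N × Fin m))
    · have h3 : (S.image Prod.fst).card = k := by rw [card_image_of_injOn hinj, hS]
      obtain ⟨t, ht, htS⟩ := h2 _ h3
      have h4 : ∀ i : {i // i ∈ t}, ∃ x : Fin m, (i.1, x) ∈ S := by
        intro i
        obtain ⟨p, hp, hpi⟩ := mem_image.1 (htS i.2)
        exact ⟨p.2, by rw [← hpi]; exact hp⟩
      choose f hf using h4
      refine ⟨t.attach.image fun i => (i.1, f i), mem_union_right _ ?_, ?_⟩
      · rw [hB, mem_biUnion]
        refine ⟨t, ht, mem_image.2 ⟨fun i hi => f ⟨i, hi⟩, ?_, rfl⟩⟩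
        rw [mem_pi]
        intro i hi
        exact mem_univ _
      · intro p hp
        obtain ⟨i, _, rfl⟩ := mem_image.1 hp
        exact hf i
    · unfold Set.InjOn at hinj
      push Not at hinj
      obtain ⟨p, hp, p', hp', hpp, hne⟩ := hinj
      rw [mem_coe] at hp hp'
      have h3 : ({p, p'} : Finset (Fin N × Fin m)) ⊆ S := by
        intro x hx
        simp only [mem_insert, mem_singleton] at hx
        rcases hx with rfl | rfl
        · exact hp
        · exact hp'
      have h4 : ({p, p'} : Finset (Fin N × Fin m)).card = 2 := card_pair hne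
      obtain ⟨e, he1, he2, he3⟩ := exists_subsuperset_card_eq h3
        (show ({p, p'} : Finset (Fin N × Fin m)).card ≤ s by omega) (show s ≤ S.card by omega)
      refine ⟨e, mem_union_left _ ?_, he2⟩
      rw [hA, mem_biUnion]
      refine ⟨{p, p'}, ?_, mem_filter.2 ⟨mem_powersetCard.2 ⟨subset_univ _, he3⟩, he1⟩⟩
      rw [hQ, mem_biUnion]
      refine ⟨p.1, mem_univ _, mem_powersetCard.2 ⟨?_, h4⟩⟩
      intro x hx
      simp only [mem_insert, mem_singleton] at hx
      rw [mem_product, mem_singleton]
      rcases hx with rfl | rfl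
      · exact ⟨rfl, mem_univ _⟩
      · exact ⟨hpp.symm, mem_univ _⟩

end Pool.Agent.TH173.RT
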