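import Pool.Agent.TH173.RT.Cover

/-!
# Rescaled Turán densities near the diagonal
-/

set_option autoImplicit false
open Finset Filter Topology

namespace Pool.Agent.TH173.RT

/-- `E` is a family of `r`-sets such that every `k`-set contains a member of `E` -/
def Cov {V : Type} (k r : ℕ) (E : Finset (Finset V)) : Prop :=
  (∀ e ∈ E, e.card = r) ∧ ∀ S : Finset V, S.card = k → ∃ e ∈ E, e ⊆ S

/-- the Turán number -/
noncomputable def TT (n k r : ℕ) : ℕ :=
  sInf {m | ∃ E : Finset (Finset (Fin n)), Cov k r E ∧ E.card = m}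

theorem TT_le {n k r : ℕ} {E : Finset (Finset (Fin n))} (h : Cov k r E) : TT n k r ≤ E.card :=
  Nat.sInf_le ⟨E, h, rfl⟩

theorem TT_le' {V : Type} [Fintype V] {n k r : ℕ} (f : V ≃ Fin n) {E : Finset (Finset V)}
    (h : Cov k r E) : TT n k r ≤ E.card := by
  classical
  have h1 : Cov k r (E.map ⟨fun e => e.map f.toEmbedding, fun a b h => map_injective _ h⟩) := by
    constructor
    · intro e he
      obtain ⟨e', he', rfl⟩ := mem_map.1 he
      simp only [Function.Embedding.coeFn_mk, card_map]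
      exact h.1 e' he'
    · intro S hS
      obtain ⟨e, he, heS⟩ := h.2 (S.map f.symm.toEmbedding) (by rw [card_map, hS])
      refine ⟨_, mem_map_of_mem _ he, ?_⟩
      intro x hx
      simp only [Function.Embedding.coeFn_mk, mem_map_equiv] at hx
      have := heS hx
      rw [mem_map_equiv] at this
      simpa using this
  have := TT_le h1
  rwa [card_map] at this

theorem TT_spec {n k r : ℕ} (hrk : r ≤ k) :
    ∃ E : Finset (Finset (Fin n)), Cov k r E ∧ E.card = TT n k r := by
  have : {m | ∃ E : Finset (Finset (Fin n)), Cov k r E ∧ E.card = m}.Nonempty := by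
    refine ⟨_, (univ : Finset (Fin n)).powersetCard r, ⟨?_, ?_⟩, rfl⟩
    · intro e he
      exact (mem_powersetCard.1 he).2
    · intro S hS
      obtain ⟨e, he, hes⟩ := exists_subset_card_eq (show r ≤ S.card by omega)
      exact ⟨e, mem_powersetCard.2 ⟨subset_univ _, hes⟩, he⟩
  exact Nat.sInf_mem this

theorem TT_lower {n k r : ℕ} (hrk : r ≤ k) (hkn : k ≤ n) :
    1 / (k.choose r : ℝ) ≤ (TT n k r : ℝ) / (n.choose r : ℝ) := by
  obtain ⟨E, hE, hc⟩ := TT_spec (n := n) hrk
  have h := lower hrk hkn E hE.1 hE.2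
  rw [hc] at h
  have h1 : (0 : ℝ) < (k.choose r : ℝ) := by exact_mod_cast Nat.choose_pos hrk
  have h2 : (0 : ℝ) < (n.choose r : ℝ) := by exact_mod_cast Nat.choose_pos (hrk.trans hkn)
  rw [div_le_div_iff₀ h1 h2, one_mul]
  have : (n.choose r : ℝ) ≤ (k.choose r : ℝ) * (TT n k r : ℝ) := by exact_mod_cast h
  linarith

theorem desc_le (N m : ℕ) (hm : 0 < m) : ∀ s : ℕ, s ≤ N →
    m ^ s * N.descFactorial s ≤ (N * m).descFactorial s := by
  intro s
  induction s with
  | zero => intro _; simp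
  | succ s ih =>
    intro h
    have ih := ih (by omega)
    rw [Nat.descFactorial_succ, Nat.descFactorial_succ, pow_succ]
    have h1 : m * (N - s) ≤ N * m - s := by
      obtain ⟨x, rfl⟩ : ∃ x, N = s + x := ⟨N - s, by omega⟩
      have h2 : s ≤ s * m := Nat.le_mul_of_pos_right s hm
      have h3 : (s + x) * m = s * m + x * m := by ring
      have h4 : m * (s + x - s) = x * m := by
        rw [Nat.add_sub_cancel_left]
        ring
      rw [h4, h3]
      omega
    calc m ^ s * m * ((N - s) * N.descFactorial s) =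
        (m * (N - s)) * (m ^ s * N.descFactorial s) := by ring
      _ ≤ (N * m - s) * (N * m).descFactorial s := Nat.mul_le_mul h1 ih

theorem choose_blow (N m s : ℕ) (hm : 0 < m) (hs : s ≤ N) :
    m ^ s * N.choose s ≤ (N * m).choose s := by
  have h := desc_le N m hm s hs
  rw [Nat.descFactorial_eq_factorial_mul_choose, Nat.descFactorial_eq_factorial_mul_choose] at h
  apply Nat.le_of_mul_le_mul_left _ (Nat.factorial_pos s)
  calc s.factorial * (m ^ s * N.choose s) = m ^ s * (s.factorial * N.choose s) := by ring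
    _ ≤ _ := h

theorem two_choose (x : ℕ) : 2 * (x.choose 2) = x * (x - 1) := by
  rw [Nat.choose_two_right, Nat.mul_div_cancel' (Nat.even_mul_pred_self x).two_dvd]

/-- the bound for the blow-up -/
theorem TT_upper {N m k s : ℕ} (hs : 2 ≤ s) (hsk : s ≤ k) (hkN : k ≤ N) (hm : 0 < m) :
    (TT (N * m) k s : ℝ) / ((N * m).choose s : ℝ) ≤
      (s.choose 2 : ℝ) / N + (1 + Real.log ((N - s).choose (k - s))) / (k.choose s : ℝ) +
        1 / (N.choose s : ℝ) := by
  obtain ⟨T, hT1, hT2, hTc⟩ := cover hsk hkN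
  obtain ⟨E, hE1, hE2, hEc⟩ := blow (m := m) hs hsk T hT1 hT2
  have h0 := TT_le' (k := k) (r := s) finProdFinEquiv ⟨hE1, hE2⟩
  have hsN : s ≤ N * m := (hsk.trans hkN).trans (Nat.le_mul_of_pos_right N hm)
  have hNpos : 0 < N := by omega
  have p1 : (0 : ℝ) < ((N * m).choose s : ℝ) := by exact_mod_cast Nat.choose_pos hsN
  have p2 : (0 : ℝ) < (N.choose s : ℝ) := by exact_mod_cast Nat.choose_pos (hsk.trans hkN)
  have p3 : (0 : ℝ) < (k.choose s : ℝ) := by exact_mod_cast Nat.choose_pos hsk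
  have p4 : (0 : ℝ) < (N : ℝ) := by exact_mod_cast hNpos
  -- the first term
  have a1 : N * (N * m.choose 2 * (N * m - 2).choose (s - 2)) ≤
      s.choose 2 * (N * m).choose s := by
    have b1 : (N * m).choose s * s.choose 2 = (N * m).choose 2 * (N * m - 2).choose (s - 2) :=
      Nat.choose_mul hs
    have b2 : N * (N * m.choose 2) ≤ (N * m).choose 2 := by
      apply Nat.le_of_mul_le_mul_left _ (show 0 < 2 by norm_num)
      rw [two_choose]
      calc 2 * (N * (N * m.choose 2)) = N * N * (2 * m.choose 2) := by ring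
        _ = N * N * (m * (m - 1)) := by rw [two_choose]
        _ = N * m * (N * (m - 1)) := by ring
        _ ≤ N * m * (N * m - 1) := by
            apply Nat.mul_le_mul_left
            obtain ⟨x, rfl⟩ : ∃ x, m = x + 1 := ⟨m - 1, by omega⟩
            have : N * (x + 1) = N * x + N := by ring
            rw [Nat.add_sub_cancel, this]
            omega
    calc N * (N * m.choose 2 * (N * m - 2).choose (s - 2)) =
        N * (N * m.choose 2) * (N * m - 2).choose (s - 2) := by ring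
      _ ≤ (N * m).choose 2 * (N * m - 2).choose (s - 2) := Nat.mul_le_mul_right _ b2
      _ = s.choose 2 * (N * m).choose s := by rw [← b1]; ring
  have a2 : ((N * m.choose 2 * (N * m - 2).choose (s - 2) : ℕ) : ℝ) / ((N * m).choose s : ℝ) ≤
      (s.choose 2 : ℝ) / N := by
    rw [div_le_div_iff₀ p1 p4]
    have : ((N * (N * m.choose 2 * (N * m - 2).choose (s - 2)) : ℕ) : ℝ) ≤
        ((s.choose 2 * (N * m).choose s : ℕ) : ℝ) := by exact_mod_cast a1
    push_cast at this ⊢
    linarith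
  -- the second term
  have a3 : ((m ^ s : ℕ) : ℝ) / ((N * m).choose s : ℝ) ≤ 1 / (N.choose s : ℝ) := by
    rw [div_le_div_iff₀ p1 p2, one_mul]
    exact_mod_cast choose_blow N m s hm (hsk.trans hkN)
  have a4 : ((T.card * m ^ s : ℕ) : ℝ) / ((N * m).choose s : ℝ) ≤
      (1 + Real.log ((N - s).choose (k - s))) / (k.choose s : ℝ) + 1 / (N.choose s : ℝ) := by
    calc ((T.card * m ^ s : ℕ) : ℝ) / ((N * m).choose s : ℝ) =
        (T.card : ℝ) * (((m ^ s : ℕ) : ℝ) / ((N * m).choose s : ℝ)) := by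
          push_cast
          ring
      _ ≤ (T.card : ℝ) * (1 / (N.choose s : ℝ)) :=
          mul_le_mul_of_nonneg_left a3 (Nat.cast_nonneg _)
      _ ≤ ((N.choose s : ℝ) / (k.choose s : ℝ) *
          (1 + Real.log ((N - s).choose (k - s))) + 1) * (1 / (N.choose s : ℝ)) :=
          mul_le_mul_of_nonneg_right hTc (by positivity)
      _ = _ := by
          field_simp
  have a5 : (TT (N * m) k s : ℝ) ≤
      ((N * m.choose 2 * (N * m - 2).choose (s - 2) + T.card * m ^ s : ℕ) : ℝ) := by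
    exact_mod_cast h0.trans hEc
  calc (TT (N * m) k s : ℝ) / ((N * m).choose s : ℝ) ≤
      ((N * m.choose 2 * (N * m - 2).choose (s - 2) + T.card * m ^ s : ℕ) : ℝ) /
        ((N * m).choose s : ℝ) := div_le_div_of_nonneg_right a5 p1.le
    _ = ((N * m.choose 2 * (N * m - 2).choose (s - 2) : ℕ) : ℝ) / ((N * m).choose s : ℝ) +
        ((T.card * m ^ s : ℕ) : ℝ) / ((N * m).choose s : ℝ) := by
        rw [Nat.cast_add, add_div]
    _ ≤ _ := by linarith

/-- the density -/
def Dens (k r : ℕ) (t : ℝ) : Prop :=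
  Tendsto (fun n : ℕ => (TT n k r : ℝ) / (n.choose r : ℝ)) atTop (𝓝 t)

theorem dens_lower {k r : ℕ} (hrk : r ≤ k) {t : ℝ} (h : Dens k r t) :
    1 / (k.choose r : ℝ) ≤ t := by
  apply ge_of_tendsto h
  filter_upwards [eventually_ge_atTop k] with n hn
  exact TT_lower hrk hn

theorem le_choose : ∀ k s : ℕ, 1 ≤ s → s < k → k ≤ k.choose s := by
  intro k
  induction k with
  | zero => intro s _ h; omega
  | succ k ih =>
    intro s h1 h2
    obtain ⟨x, rfl⟩ : ∃ x, s = x + 1 := ⟨s - 1, by omega⟩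
    rw [Nat.choose_succ_succ' k x]
    rcases Nat.lt_or_ge (x + 1) k with h | h
    · have h3 := ih (x + 1) (by omega) h
      have h4 : 0 < k.choose x := Nat.choose_pos (by omega)
      omega
    · have h3 : k = x + 1 := by omega
      subst h3
      rw [Nat.choose_self, Nat.choose_succ_self_right]

theorem dens_upper {k s : ℕ} (hs : 2 ≤ s) (hsk : s < k) {t : ℝ} (h : Dens k s t) :
    t ≤ (2 + ((k - s : ℕ) : ℝ) * (((k - s : ℕ) : ℝ) + 2) * Real.log k) / (k.choose s : ℝ) := by
  -- the number of parts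
  set N : ℕ := s ^ 2 * k.choose s with hN
  have c1 : k ≤ k.choose s := le_choose k s (by omega) hsk
  have c2 : 4 ≤ s ^ 2 := by nlinarith
  have c3 : 4 * k.choose s ≤ N := Nat.mul_le_mul_right _ c2
  have c4 : k ≤ N := by omega
  have c5 : N ≤ N.choose s := le_choose N s (by omega) (by omega)
  have hNpos : 0 < N := by omega
  have p0 : (0 : ℝ) < (k.choose s : ℝ) := by
    have : 0 < k.choose s := by omega
    exact_mod_cast this
  have hb : t ≤ (s.choose 2 : ℝ) / N + (1 + Real.log ((N - s).choose (k - s))) /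
      (k.choose s : ℝ) + 1 / (N.choose s : ℝ) := by
    have h1 : Tendsto (fun m : ℕ => N * (m + 1)) atTop atTop := by
      apply tendsto_atTop_mono (f := fun m => m)
      · intro m
        exact (Nat.le_succ m).trans (Nat.le_mul_of_pos_left _ hNpos)
      · exact tendsto_id
    exact le_of_tendsto' (h.comp h1) fun m => TT_upper hs hsk.le c4 (Nat.succ_pos m)
  -- the three terms
  have b1 : (s.choose 2 : ℝ) / N ≤ 1 / 2 / (k.choose s : ℝ) := by
    have pN : (0 : ℝ) < (N : ℝ) := by exact_mod_cast hNpos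
    rw [div_le_div_iff₀ pN p0]
    have h1 : 2 * (s.choose 2) ≤ s ^ 2 := by
      rw [two_choose, sq]
      exact Nat.mul_le_mul_left _ (Nat.sub_le _ _)
    have h2 : 2 * (s.choose 2) * k.choose s ≤ N := Nat.mul_le_mul_right _ h1
    have h3 : (2 : ℝ) * (s.choose 2 : ℝ) * (k.choose s : ℝ) ≤ (N : ℝ) := by exact_mod_cast h2
    linarith
  have b3 : 1 / (N.choose s : ℝ) ≤ 1 / 4 / (k.choose s : ℝ) := by
    have h1 : (4 : ℝ) * (k.choose s : ℝ) ≤ (N.choose s : ℝ) := by exact_mod_cast c3.trans c5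
    have pC : (0 : ℝ) < (N.choose s : ℝ) := by linarith
    rw [div_le_div_iff₀ pC p0]
    linarith
  have hk1 : (1 : ℝ) ≤ (k : ℝ) := by
    have : 1 ≤ k := by omega
    exact_mod_cast this
  have b2 : Real.log ((N - s).choose (k - s)) ≤
      ((k - s : ℕ) : ℝ) * (((k - s : ℕ) : ℝ) + 2) * Real.log k := by
    have d1 : (N - s).choose (k - s) ≤ N ^ (k - s) :=
      (Nat.choose_le_pow _ _).trans (Nat.pow_le_pow_left (Nat.sub_le _ _) _)
    have d2 : N ≤ k ^ (k - s + 2) := by
      have e1 : k.choose s ≤ k ^ (k - s) := by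
        rw [← Nat.choose_symm hsk.le]
        exact Nat.choose_le_pow _ _
      have e2 : s ^ 2 ≤ k ^ 2 := Nat.pow_le_pow_left hsk.le 2
      rw [hN, pow_add, Nat.mul_comm]
      exact Nat.mul_le_mul e1 e2
    have d3 : (N - s).choose (k - s) ≤ k ^ ((k - s + 2) * (k - s)) := by
      rw [pow_mul]
      exact d1.trans (Nat.pow_le_pow_left d2 _)
    have d4 : (1 : ℝ) ≤ ((N - s).choose (k - s) : ℝ) := by
      exact_mod_cast Nat.choose_pos (show k - s ≤ N - s by omega)
    have d5 : (((N - s).choose (k - s) : ℕ) : ℝ) ≤ (k : ℝ) ^ ((k - s + 2) * (k - s)) := by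
      exact_mod_cast d3
    have d6 := Real.log_le_log (by linarith) d5
    rw [Real.log_pow] at d6
    refine d6.trans (le_of_eq ?_)
    push_cast
    ring
  refine hb.trans ?_
  have e1 : (1 + Real.log ((N - s).choose (k - s))) / (k.choose s : ℝ) ≤
      (1 + ((k - s : ℕ) : ℝ) * (((k - s : ℕ) : ℝ) + 2) * Real.log k) / (k.choose s : ℝ) :=
    div_le_div_of_nonneg_right (by linarith) p0.le
  have e2 : (2 + ((k - s : ℕ) : ℝ) * (((k - s : ℕ) : ℝ) + 2) * Real.log k) / (k.choose s : ℝ) =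
      1 / 2 / (k.choose s : ℝ) + (1 + ((k - s : ℕ) : ℝ) * (((k - s : ℕ) : ℝ) + 2) * Real.log k) /
        (k.choose s : ℝ) + 1 / 2 / (k.choose s : ℝ) := by
    ring
  have e3 : 1 / 4 / (k.choose s : ℝ) ≤ 1 / 2 / (k.choose s : ℝ) :=
    div_le_div_of_nonneg_right (by norm_num) p0.le
  rw [e2]
  linarith

/-- **Monotonicity near the diagonal.** -/
theorem near {k r : ℕ} (hr : 3 ≤ r) (hrk : r ≤ k)
    (hb : ((k - (r - 1) : ℕ) : ℝ) * (2 + ((k - (r - 1) : ℕ) : ℝ) *
      (((k - (r - 1) : ℕ) : ℝ) + 2) * Real.log k) ≤ (k : ℝ) - 1)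
    {t' t : ℝ} (h' : Dens k (r - 1) t') (h : Dens k r t) :
    ((k : ℝ) - 1) ^ (r - 2) / ((r - 1).factorial : ℝ) * t' ≤
      ((k : ℝ) - 1) ^ (r - 1) / (r.factorial : ℝ) * t := by
  have h1 := dens_upper (by omega) (by omega) h'
  have h2 := dens_lower hrk h
  obtain ⟨x, rfl⟩ : ∃ x, r = x + 2 := ⟨r - 2, by omega⟩
  have i1 : x + 2 - 1 = x + 1 := by omega
  have i2 : x + 2 - 2 = x := by omega
  rw [i1] at hb h1 ⊢
  rw [i2]
  have p1 : (0 : ℝ) < (k.choose (x + 1) : ℝ) := by
    exact_mod_cast Nat.choose_pos (show x + 1 ≤ k by omega)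
  have p2 : (0 : ℝ) < (k.choose (x + 2) : ℝ) := by exact_mod_cast Nat.choose_pos hrk
  have p3 : (0 : ℝ) < (k : ℝ) - 1 := by
    have : (3 : ℝ) ≤ (k : ℝ) := by exact_mod_cast hr.trans hrk
    linarith
  have p4 : (0 : ℝ) < ((x + 1).factorial : ℝ) := by exact_mod_cast Nat.factorial_pos _
  have p5 : (0 : ℝ) < (x : ℝ) + 2 := by positivity
  have p6 : (0 : ℝ) < ((k - (x + 1) : ℕ) : ℝ) := by
    have : 0 < k - (x + 1) := by omega
    exact_mod_cast this
  have key : (k.choose (x + 2) : ℝ) * ((x : ℝ) + 2) =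
      (k.choose (x + 1) : ℝ) * ((k - (x + 1) : ℕ) : ℝ) := by
    have := Nat.choose_succ_right_eq k (x + 1)
    have h3 : ((k.choose (x + 1 + 1) * (x + 1 + 1) : ℕ) : ℝ) =
        ((k.choose (x + 1) * (k - (x + 1)) : ℕ) : ℝ) := by exact_mod_cast this
    push_cast at h3
    rw [← h3]
    ring
  set b : ℝ := ((k - (x + 1) : ℕ) : ℝ) with hbdef
  have h3 : (2 + b * (b + 2) * Real.log k) / (k.choose (x + 1) : ℝ) ≤
      ((k : ℝ) - 1) / ((x : ℝ) + 2) * (1 / (k.choose (x + 2) : ℝ)) := by
    rw [div_mul_div_comm, mul_one, div_le_div_iff₀ p1 (by positivity)]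
    have h4 : (2 + b * (b + 2) * Real.log k) * (((x : ℝ) + 2) * (k.choose (x + 2) : ℝ)) =
        (b * (2 + b * (b + 2) * Real.log k)) * (k.choose (x + 1) : ℝ) := by
      have : ((x : ℝ) + 2) * (k.choose (x + 2) : ℝ) = (k.choose (x + 1) : ℝ) * b := by
        rw [← key]
        ring
      rw [this]
      ring
    rw [h4]
    exact mul_le_mul_of_nonneg_right hb p1.le
  have h5 : t' ≤ ((k : ℝ) - 1) / ((x : ℝ) + 2) * t :=
    h1.trans (h3.trans (mul_le_mul_of_nonneg_left h2 (div_pos p3 p5).le))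
  have h6 : ((x + 2).factorial : ℝ) = ((x : ℝ) + 2) * ((x + 1).factorial : ℝ) := by
    rw [Nat.factorial_succ (x + 1)]
    push_cast
    ring
  have h7 : ((k : ℝ) - 1) ^ (x + 1) / ((x + 2).factorial : ℝ) * t =
      ((k : ℝ) - 1) ^ x / ((x + 1).factorial : ℝ) * (((k : ℝ) - 1) / ((x : ℝ) + 2) * t) := by
    rw [h6, pow_succ]
    field_simp
  rw [h7]
  exact mul_le_mul_of_nonneg_left h5 (by positivity)

end Pool.Agent.TH173.RT
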