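import Pool.Agent.TH173.RT.Blow2

/-!
# Rescaled Turán densities near the diagonal, II
-/

set_option autoImplicit false
open Finset Filter Topology

namespace Pool.Agent.TH173.RT

/-- the bound for the two-level blow-up -/
theorem TT_upper2 {M N m k s : ℕ} (hs : 2 ≤ s) (hsk : s ≤ k) (hkM : k ≤ M) (hkN : k ≤ N)
    (hm : 0 < m) :
    (TT (N * (M * m)) k s : ℝ) / ((N * (M * m)).choose s : ℝ) ≤
      (s.choose 2 : ℝ) / N + ((1 + Real.log ((M - s).choose (k - s))) / (k.choose s : ℝ) +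
        1 / (M.choose s : ℝ)) + (s.choose 2 : ℝ) / M *
        ((1 + Real.log ((s.choose 2 : ℝ) * ((N - s).choose (k - s) : ℝ))) /
          ((k - 2).choose (s - 2) : ℝ) + 1 / (N.choose s : ℝ)) := by
  obtain ⟨T, hT1, hT2, hTc⟩ := cover hsk hkM
  obtain ⟨T', hT1', hT2', hTc'⟩ := robust hs hsk hkN
  obtain ⟨E, hE1, hE2, hEc⟩ := blow2 (m := m) hs hsk T hT1 hT2 T' hT1' hT2'
  have hcard : Fintype.card (Fin M × Fin N × Fin m) = Fintype.card (Fin (N * (M * m))) := by
    simp only [Fintype.card_prod, Fintype.card_fin]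
    ring
  have h0 := TT_le' (k := k) (r := s) (Fintype.equivOfCardEq hcard) ⟨hE1, hE2⟩
  have hMpos : 0 < M := by omega
  have hNpos : 0 < N := by omega
  have hMm : 0 < M * m := Nat.mul_pos hMpos hm
  have hNm : 0 < N * m := Nat.mul_pos hNpos hm
  have hsN : s ≤ N * (M * m) := (hsk.trans hkN).trans (Nat.le_mul_of_pos_right N hMm)
  have p1 : (0 : ℝ) < ((N * (M * m)).choose s : ℝ) := by exact_mod_cast Nat.choose_pos hsN
  have p2 : (0 : ℝ) < (M.choose s : ℝ) := by exact_mod_cast Nat.choose_pos (hsk.trans hkM)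
  have p2' : (0 : ℝ) < (N.choose s : ℝ) := by exact_mod_cast Nat.choose_pos (hsk.trans hkN)
  have p3 : (0 : ℝ) < (k.choose s : ℝ) := by exact_mod_cast Nat.choose_pos hsk
  have p3' : (0 : ℝ) < ((k - 2).choose (s - 2) : ℝ) := by
    exact_mod_cast Nat.choose_pos (show s - 2 ≤ k - 2 by omega)
  have p4 : (0 : ℝ) < (N : ℝ) := by exact_mod_cast hNpos
  have p4' : (0 : ℝ) < (M : ℝ) := by exact_mod_cast hMpos
  -- the first term
  have a1 : N * (N * (M * m).choose 2 * (N * (M * m) - 2).choose (s - 2)) ≤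
      s.choose 2 * (N * (M * m)).choose s := by
    have b1 : (N * (M * m)).choose s * s.choose 2 =
        (N * (M * m)).choose 2 * (N * (M * m) - 2).choose (s - 2) := Nat.choose_mul hs
    have b2 : N * (N * (M * m).choose 2) ≤ (N * (M * m)).choose 2 := by
      apply Nat.le_of_mul_le_mul_left _ (show 0 < 2 by norm_num)
      rw [two_choose]
      calc 2 * (N * (N * (M * m).choose 2)) = N * N * (2 * (M * m).choose 2) := by ring
        _ = N * N * ((M * m) * (M * m - 1)) := by rw [two_choose]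
        _ = N * (M * m) * (N * (M * m - 1)) := by ring
        _ ≤ N * (M * m) * (N * (M * m) - 1) := by
            apply Nat.mul_le_mul_left
            obtain ⟨x, hx⟩ : ∃ x, M * m = x + 1 := ⟨M * m - 1, by omega⟩
            have : N * (x + 1) = N * x + N := by ring
            rw [hx, Nat.add_sub_cancel, this]
            omega
    calc N * (N * (M * m).choose 2 * (N * (M * m) - 2).choose (s - 2)) =
        N * (N * (M * m).choose 2) * (N * (M * m) - 2).choose (s - 2) := by ring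
      _ ≤ (N * (M * m)).choose 2 * (N * (M * m) - 2).choose (s - 2) :=
          Nat.mul_le_mul_right _ b2
      _ = s.choose 2 * (N * (M * m)).choose s := by rw [← b1]; ring
  have a2 : ((N * (M * m).choose 2 * (N * (M * m) - 2).choose (s - 2) : ℕ) : ℝ) /
      ((N * (M * m)).choose s : ℝ) ≤ (s.choose 2 : ℝ) / N := by
    rw [div_le_div_iff₀ p1 p4]
    have : ((N * (N * (M * m).choose 2 * (N * (M * m) - 2).choose (s - 2)) : ℕ) : ℝ) ≤
        ((s.choose 2 * (N * (M * m)).choose s : ℕ) : ℝ) := by exact_mod_cast a1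
    push_cast at this ⊢
    linarith
  -- the second term
  have a3 : (((N * m) ^ s : ℕ) : ℝ) / ((N * (M * m)).choose s : ℝ) ≤ 1 / (M.choose s : ℝ) := by
    rw [div_le_div_iff₀ p1 p2, one_mul]
    have h := choose_blow M (N * m) s hNm (hsk.trans hkM)
    have e : M * (N * m) = N * (M * m) := by ring
    rw [e] at h
    exact_mod_cast h
  have a4 : ((T.card * (N * m) ^ s : ℕ) : ℝ) / ((N * (M * m)).choose s : ℝ) ≤
      (1 + Real.log ((M - s).choose (k - s))) / (k.choose s : ℝ) + 1 / (M.choose s : ℝ) := by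
    calc ((T.card * (N * m) ^ s : ℕ) : ℝ) / ((N * (M * m)).choose s : ℝ) =
        (T.card : ℝ) * ((((N * m) ^ s : ℕ) : ℝ) / ((N * (M * m)).choose s : ℝ)) := by
          push_cast
          ring
      _ ≤ (T.card : ℝ) * (1 / (M.choose s : ℝ)) :=
          mul_le_mul_of_nonneg_left a3 (Nat.cast_nonneg _)
      _ ≤ ((M.choose s : ℝ) / (k.choose s : ℝ) *
          (1 + Real.log ((M - s).choose (k - s))) + 1) * (1 / (M.choose s : ℝ)) :=
          mul_le_mul_of_nonneg_right hTc (by positivity)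
      _ = _ := by
          field_simp
  -- the third term
  have a5 : ((M * (m ^ 2 * (M * m) ^ (s - 2)) : ℕ) : ℝ) / ((N * (M * m)).choose s : ℝ) ≤
      1 / M * (1 / (N.choose s : ℝ)) := by
    rw [one_div_mul_one_div, div_le_div_iff₀ p1 (mul_pos p4' p2'), one_mul]
    have h := choose_blow N (M * m) s hMm (hsk.trans hkN)
    have e : M * (m ^ 2 * (M * m) ^ (s - 2)) * (M * N.choose s) = (M * m) ^ s * N.choose s := by
      obtain ⟨y, rfl⟩ : ∃ y, s = y + 2 := ⟨s - 2, by omega⟩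
      rw [Nat.add_sub_cancel, pow_add (M * m) y 2]
      ring
    rw [← e] at h
    exact_mod_cast h
  have a6 : ((T'.card * (s.choose 2 * (M * (m ^ 2 * (M * m) ^ (s - 2)))) : ℕ) : ℝ) /
      ((N * (M * m)).choose s : ℝ) ≤ (s.choose 2 : ℝ) / M *
        ((1 + Real.log ((s.choose 2 : ℝ) * ((N - s).choose (k - s) : ℝ))) /
          ((k - 2).choose (s - 2) : ℝ) + 1 / (N.choose s : ℝ)) := by
    calc ((T'.card * (s.choose 2 * (M * (m ^ 2 * (M * m) ^ (s - 2)))) : ℕ) : ℝ) /
        ((N * (M * m)).choose s : ℝ) = ((T'.card : ℝ) * (s.choose 2 : ℝ)) *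
          (((M * (m ^ 2 * (M * m) ^ (s - 2)) : ℕ) : ℝ) / ((N * (M * m)).choose s : ℝ)) := by
          push_cast
          ring
      _ ≤ ((T'.card : ℝ) * (s.choose 2 : ℝ)) * (1 / M * (1 / (N.choose s : ℝ))) :=
          mul_le_mul_of_nonneg_left a5 (by positivity)
      _ = (T'.card : ℝ) * ((s.choose 2 : ℝ) * (1 / M * (1 / (N.choose s : ℝ)))) := by ring
      _ ≤ ((N.choose s : ℝ) / ((k - 2).choose (s - 2) : ℝ) *
          (1 + Real.log ((s.choose 2 : ℝ) * ((N - s).choose (k - s) : ℝ))) + 1) *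
          ((s.choose 2 : ℝ) * (1 / M * (1 / (N.choose s : ℝ)))) :=
          mul_le_mul_of_nonneg_right hTc' (by positivity)
      _ = _ := by
          field_simp
  have a7 : (TT (N * (M * m)) k s : ℝ) ≤
      ((N * (M * m).choose 2 * (N * (M * m) - 2).choose (s - 2) + T.card * (N * m) ^ s +
        T'.card * (s.choose 2 * (M * (m ^ 2 * (M * m) ^ (s - 2)))) : ℕ) : ℝ) := by
    exact_mod_cast h0.trans hEc
  refine (div_le_div_of_nonneg_right a7 p1.le).trans ?_
  rw [Nat.cast_add, Nat.cast_add, add_div, add_div]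
  linarith

theorem dens_upper2 {k s : ℕ} (hs : 2 ≤ s) (hsk : s < k) {t : ℝ} (h : Dens k s t) :
    t ≤ (4 + 5 * ((k - s : ℕ) : ℝ) * Real.log k) / (k.choose s : ℝ) := by
  set N : ℕ := s ^ 2 * k.choose s with hN
  set M : ℕ := k ^ 5 with hM
  have hk3 : 3 ≤ k := by omega
  have c1 : k ≤ k.choose s := le_choose k s (by omega) hsk
  have c2 : 4 ≤ s ^ 2 := by nlinarith
  have c3 : 4 * k.choose s ≤ N := Nat.mul_le_mul_right _ c2
  have c4 : k ≤ N := by omega
  have c5 : N ≤ N.choose s := le_choose N s (by omega) (by omega)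
  have c6 : k ≤ M := by
    rw [hM]
    exact Nat.le_self_pow (by norm_num) k
  have hNpos : 0 < N := by omega
  have hMpos : 0 < M := by omega
  have p0 : (0 : ℝ) < (k.choose s : ℝ) := by
    have : 0 < k.choose s := by omega
    exact_mod_cast this
  have hb : t ≤ (s.choose 2 : ℝ) / N + ((1 + Real.log ((M - s).choose (k - s))) /
      (k.choose s : ℝ) + 1 / (M.choose s : ℝ)) + (s.choose 2 : ℝ) / M *
        ((1 + Real.log ((s.choose 2 : ℝ) * ((N - s).choose (k - s) : ℝ))) /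
          ((k - 2).choose (s - 2) : ℝ) + 1 / (N.choose s : ℝ)) := by
    have h1 : Tendsto (fun m : ℕ => N * (M * (m + 1))) atTop atTop := by
      apply tendsto_atTop_mono (f := fun m => m)
      · intro m
        exact ((Nat.le_succ m).trans (Nat.le_mul_of_pos_left _ hMpos)).trans
          (Nat.le_mul_of_pos_left _ hNpos)
      · exact tendsto_id
    exact le_of_tendsto' (h.comp h1) fun m => TT_upper2 hs hsk.le c6 c4 (Nat.succ_pos m)
  have hk1 : (3 : ℝ) ≤ (k : ℝ) := by exact_mod_cast hk3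
  have hlogk : 0 ≤ Real.log k := Real.log_nonneg (by linarith)
  -- the terms
  have b1 : (s.choose 2 : ℝ) / N ≤ 1 / 2 / (k.choose s : ℝ) := by
    have pN : (0 : ℝ) < (N : ℝ) := by exact_mod_cast hNpos
    rw [div_le_div_iff₀ pN p0]
    have h1 : 2 * (s.choose 2) ≤ s ^ 2 := by
      rw [two_choose, sq]
      exact Nat.mul_le_mul_left _ (Nat.sub_le _ _)
    have h2 : 2 * (s.choose 2) * k.choose s ≤ N := Nat.mul_le_mul_right _ h1
    have h3 : (2 : ℝ) * (s.choose 2 : ℝ) * (k.choose s : ℝ) ≤ (N : ℝ) := by exact_mod_cast h2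
    linarith
  have b3 : 1 / (M.choose s : ℝ) ≤ 1 / (k.choose s : ℝ) := by
    apply one_div_le_one_div_of_le p0
    exact_mod_cast Nat.choose_le_choose s c6
  have b2 : Real.log ((M - s).choose (k - s)) ≤ 5 * ((k - s : ℕ) : ℝ) * Real.log k := by
    have d1 : (M - s).choose (k - s) ≤ k ^ (5 * (k - s)) := by
      rw [pow_mul]
      exact (Nat.choose_le_pow _ _).trans (Nat.pow_le_pow_left (Nat.sub_le _ _) _)
    have d4 : (1 : ℝ) ≤ ((M - s).choose (k - s) : ℝ) := by
      exact_mod_cast Nat.choose_pos (show k - s ≤ M - s by omega)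
    have d5 : (((M - s).choose (k - s) : ℕ) : ℝ) ≤ (k : ℝ) ^ (5 * (k - s)) := by
      exact_mod_cast d1
    have d6 := Real.log_le_log (by linarith) d5
    rw [Real.log_pow] at d6
    refine d6.trans (le_of_eq ?_)
    push_cast
    ring
  have b4 : Real.log ((s.choose 2 : ℝ) * ((N - s).choose (k - s) : ℝ)) ≤ (k : ℝ) ^ 3 := by
    have d1 : (N - s).choose (k - s) ≤ N ^ (k - s) :=
      (Nat.choose_le_pow _ _).trans (Nat.pow_le_pow_left (Nat.sub_le _ _) _)
    have d2 : N ≤ k ^ (k - s + 2) := by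
      have e1 : k.choose s ≤ k ^ (k - s) := by
        rw [← Nat.choose_symm hsk.le]
        exact Nat.choose_le_pow _ _
      have e2 : s ^ 2 ≤ k ^ 2 := Nat.pow_le_pow_left hsk.le 2
      rw [hN, pow_add, Nat.mul_comm]
      exact Nat.mul_le_mul e1 e2
    have d3 : (N - s).choose (k - s) ≤ k ^ ((k - s + 2) * (k - s)) := by
      rw [pow_mul]
      exact d1.trans (Nat.pow_le_pow_left d2 _)
    have d7 : s.choose 2 ≤ k ^ 2 :=
      (Nat.choose_le_pow _ _).trans (Nat.pow_le_pow_left hsk.le 2)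
    have d8 : s.choose 2 * (N - s).choose (k - s) ≤ k ^ (k ^ 2) := by
      calc s.choose 2 * (N - s).choose (k - s) ≤ k ^ 2 * k ^ ((k - s + 2) * (k - s)) :=
            Nat.mul_le_mul d7 d3
        _ = k ^ (2 + (k - s + 2) * (k - s)) := by rw [pow_add]
        _ ≤ k ^ (k ^ 2) := by
            apply Nat.pow_le_pow_right (by omega)
            obtain ⟨y, hy⟩ : ∃ y, k = y + 2 := ⟨k - 2, by omega⟩
            have h1 : k - s ≤ y := by omega
            calc 2 + (k - s + 2) * (k - s) ≤ 2 + (y + 2) * y :=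
                  Nat.add_le_add_left (Nat.mul_le_mul (by omega) h1) 2
              _ ≤ k ^ 2 := by
                  rw [hy]
                  nlinarith
    have d4 : (1 : ℝ) ≤ (s.choose 2 : ℝ) * ((N - s).choose (k - s) : ℝ) := by
      have a1 : 0 < s.choose 2 := Nat.choose_pos hs
      have a2 : 0 < (N - s).choose (k - s) := Nat.choose_pos (by omega)
      exact_mod_cast Nat.mul_pos a1 a2
    have d5 : (s.choose 2 : ℝ) * ((N - s).choose (k - s) : ℝ) ≤ (k : ℝ) ^ (k ^ 2) := by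
      exact_mod_cast d8
    have d6 := Real.log_le_log (by linarith) d5
    rw [Real.log_pow] at d6
    refine d6.trans ?_
    have d9 : Real.log k ≤ (k : ℝ) := (Real.log_le_sub_one_of_pos (by linarith)).trans (by linarith)
    push_cast
    calc (k : ℝ) ^ 2 * Real.log k ≤ (k : ℝ) ^ 2 * k :=
          mul_le_mul_of_nonneg_left d9 (by positivity)
      _ = (k : ℝ) ^ 3 := by ring
  have b5 : (s.choose 2 : ℝ) / M *
        ((1 + Real.log ((s.choose 2 : ℝ) * ((N - s).choose (k - s) : ℝ))) /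
          ((k - 2).choose (s - 2) : ℝ) + 1 / (N.choose s : ℝ)) ≤ 1 / (k.choose s : ℝ) := by
    have p3' : (0 : ℝ) < ((k - 2).choose (s - 2) : ℝ) := by
      exact_mod_cast Nat.choose_pos (show s - 2 ≤ k - 2 by omega)
    have pM : (M : ℝ) = (k : ℝ) ^ 5 := by rw [hM]; push_cast; rfl
    have id1 : (k.choose s : ℝ) * (s.choose 2 : ℝ) =
        (k.choose 2 : ℝ) * ((k - 2).choose (s - 2) : ℝ) := by
      exact_mod_cast Nat.choose_mul (n := k) hs
    have q1 : (s.choose 2 : ℝ) / ((k - 2).choose (s - 2) : ℝ) =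
        (k.choose 2 : ℝ) / (k.choose s : ℝ) := by
      rw [div_eq_div_iff p3'.ne' p0.ne']
      linarith
    have q2 : (k.choose 2 : ℝ) ≤ (k : ℝ) ^ 2 / 2 := by
      have h1 : 2 * (k.choose 2) ≤ k ^ 2 := by
        rw [two_choose, sq]
        exact Nat.mul_le_mul_left _ (Nat.sub_le _ _)
      have : (2 : ℝ) * (k.choose 2 : ℝ) ≤ (k : ℝ) ^ 2 := by exact_mod_cast h1
      linarith
    have q3 : (s.choose 2 : ℝ) ≤ (k : ℝ) ^ 2 / 2 := by
      refine le_trans ?_ q2
      exact_mod_cast Nat.choose_le_choose 2 hsk.le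
    have q4 : 1 / (N.choose s : ℝ) ≤ 1 / (k.choose s : ℝ) := by
      apply one_div_le_one_div_of_le p0
      have : k.choose s ≤ N.choose s := by omega
      exact_mod_cast this
    have q5 : (s.choose 2 : ℝ) *
        ((1 + Real.log ((s.choose 2 : ℝ) * ((N - s).choose (k - s) : ℝ))) /
          ((k - 2).choose (s - 2) : ℝ) + 1 / (N.choose s : ℝ)) ≤
        ((k : ℝ) ^ 2 / 2 * (1 + (k : ℝ) ^ 3) + (k : ℝ) ^ 2 / 2) / (k.choose s : ℝ) := by
      have r1 : (s.choose 2 : ℝ) *
          ((1 + Real.log ((s.choose 2 : ℝ) * ((N - s).choose (k - s) : ℝ))) /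
            ((k - 2).choose (s - 2) : ℝ)) =
          (k.choose 2 : ℝ) / (k.choose s : ℝ) *
            (1 + Real.log ((s.choose 2 : ℝ) * ((N - s).choose (k - s) : ℝ))) := by
        rw [← q1]
        ring
      rw [mul_add, r1, add_div]
      apply add_le_add
      · calc (k.choose 2 : ℝ) / (k.choose s : ℝ) *
              (1 + Real.log ((s.choose 2 : ℝ) * ((N - s).choose (k - s) : ℝ))) ≤
            (k.choose 2 : ℝ) / (k.choose s : ℝ) * (1 + (k : ℝ) ^ 3) :=
              mul_le_mul_of_nonneg_left (by linarith) (by positivity)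
          _ ≤ ((k : ℝ) ^ 2 / 2) / (k.choose s : ℝ) * (1 + (k : ℝ) ^ 3) :=
              mul_le_mul_of_nonneg_right (div_le_div_of_nonneg_right q2 p0.le) (by positivity)
          _ = _ := by ring
      · calc (s.choose 2 : ℝ) * (1 / (N.choose s : ℝ)) ≤
            ((k : ℝ) ^ 2 / 2) * (1 / (k.choose s : ℝ)) :=
              mul_le_mul q3 q4 (by positivity) (by positivity)
          _ = _ := by ring
    have q6 : (s.choose 2 : ℝ) / M *
        ((1 + Real.log ((s.choose 2 : ℝ) * ((N - s).choose (k - s) : ℝ))) /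
          ((k - 2).choose (s - 2) : ℝ) + 1 / (N.choose s : ℝ)) =
        ((s.choose 2 : ℝ) *
        ((1 + Real.log ((s.choose 2 : ℝ) * ((N - s).choose (k - s) : ℝ))) /
          ((k - 2).choose (s - 2) : ℝ) + 1 / (N.choose s : ℝ))) / M := by ring
    rw [q6, pM, div_le_iff₀ (by positivity)]
    refine q5.trans ?_
    rw [one_div_mul_eq_div]
    apply div_le_div_of_nonneg_right _ p0.le
    have r2 : (k : ℝ) ^ 2 ≤ (k : ℝ) ^ 5 / 27 := by
      have : (27 : ℝ) ≤ (k : ℝ) ^ 3 := by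
        calc (27 : ℝ) = 3 ^ 3 := by norm_num
          _ ≤ (k : ℝ) ^ 3 := pow_le_pow_left₀ (by norm_num) hk1 3
      have h2 : (0 : ℝ) ≤ (k : ℝ) ^ 2 := by positivity
      nlinarith
    have r3 : (k : ℝ) ^ 2 / 2 * (1 + (k : ℝ) ^ 3) + (k : ℝ) ^ 2 / 2 =
        (k : ℝ) ^ 2 + (k : ℝ) ^ 5 / 2 := by ring
    have r4 : (0 : ℝ) ≤ (k : ℝ) ^ 5 := by positivity
    rw [r3]
    linarith
  refine hb.trans ?_
  have e1 : (1 + Real.log ((M - s).choose (k - s))) / (k.choose s : ℝ) ≤
      (1 + 5 * ((k - s : ℕ) : ℝ) * Real.log k) / (k.choose s : ℝ) :=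
    div_le_div_of_nonneg_right (by linarith) p0.le
  have e2 : (4 + 5 * ((k - s : ℕ) : ℝ) * Real.log k) / (k.choose s : ℝ) =
      1 / 2 / (k.choose s : ℝ) + (1 + 5 * ((k - s : ℕ) : ℝ) * Real.log k) / (k.choose s : ℝ) +
        1 / (k.choose s : ℝ) + 1 / (k.choose s : ℝ) + 1 / 2 / (k.choose s : ℝ) := by
    ring
  have e3 : (0 : ℝ) ≤ 1 / 2 / (k.choose s : ℝ) := by positivity
  rw [e2]
  linarith

/-- **The ratio of the rescaled densities.** -/
theorem near2 {k r : ℕ} (hr : 3 ≤ r) (hrk : r ≤ k)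
    {t' t : ℝ} (h' : Dens k (r - 1) t') (h : Dens k r t) :
    ((k : ℝ) - 1) * (((k : ℝ) - 1) ^ (r - 2) / ((r - 1).factorial : ℝ) * t') ≤
      (((k - (r - 1) : ℕ) : ℝ) * (4 + 5 * ((k - (r - 1) : ℕ) : ℝ) * Real.log k)) *
      (((k : ℝ) - 1) ^ (r - 1) / (r.factorial : ℝ) * t) := by
  have h1 := dens_upper2 (by omega) (by omega) h'
  have h2 := dens_lower hrk h
  obtain ⟨x, rfl⟩ : ∃ x, r = x + 2 := ⟨r - 2, by omega⟩
  have i1 : x + 2 - 1 = x + 1 := by omega
  have i2 : x + 2 - 2 = x := by omega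
  rw [i1] at h1 ⊢
  rw [i2]
  have p1 : (0 : ℝ) < (k.choose (x + 1) : ℝ) := by
    exact_mod_cast Nat.choose_pos (show x + 1 ≤ k by omega)
  have p2 : (0 : ℝ) < (k.choose (x + 2) : ℝ) := by exact_mod_cast Nat.choose_pos hrk
  have hk3 : (3 : ℝ) ≤ (k : ℝ) := by exact_mod_cast hr.trans hrk
  have p3 : (0 : ℝ) < (k : ℝ) - 1 := by linarith
  have p4 : (0 : ℝ) < ((x + 1).factorial : ℝ) := by exact_mod_cast Nat.factorial_pos _
  have p5 : (0 : ℝ) < (x : ℝ) + 2 := by positivity
  have p6 : (0 : ℝ) < ((k - (x + 1) : ℕ) : ℝ) := by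
    have : 0 < k - (x + 1) := by omega
    exact_mod_cast this
  have hlogk : 0 ≤ Real.log k := Real.log_nonneg (by linarith)
  have key : (k.choose (x + 2) : ℝ) * ((x : ℝ) + 2) =
      (k.choose (x + 1) : ℝ) * ((k - (x + 1) : ℕ) : ℝ) := by
    have := Nat.choose_succ_right_eq k (x + 1)
    have h3 : ((k.choose (x + 1 + 1) * (x + 1 + 1) : ℕ) : ℝ) =
        ((k.choose (x + 1) * (k - (x + 1)) : ℕ) : ℝ) := by exact_mod_cast this
    push_cast at h3
    rw [← h3]
    ring
  set b : ℝ := ((k - (x + 1) : ℕ) : ℝ) with hbdef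
  have h3 : (4 + 5 * b * Real.log k) / (k.choose (x + 1) : ℝ) =
      (b * (4 + 5 * b * Real.log k)) / ((x : ℝ) + 2) * (1 / (k.choose (x + 2) : ℝ)) := by
    rw [div_mul_div_comm, mul_one, div_eq_div_iff p1.ne' (by positivity)]
    have : ((x : ℝ) + 2) * (k.choose (x + 2) : ℝ) = (k.choose (x + 1) : ℝ) * b := by
      rw [← key]
      ring
    rw [this]
    ring
  have h5 : t' ≤ (b * (4 + 5 * b * Real.log k)) / ((x : ℝ) + 2) * t := by
    rw [h3] at h1
    exact h1.trans (mul_le_mul_of_nonneg_left h2 (by positivity))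
  have h6 : ((x + 2).factorial : ℝ) = ((x : ℝ) + 2) * ((x + 1).factorial : ℝ) := by
    rw [Nat.factorial_succ (x + 1)]
    push_cast
    ring
  have h7 : (b * (4 + 5 * b * Real.log k)) *
      (((k : ℝ) - 1) ^ (x + 1) / ((x + 2).factorial : ℝ) * t) =
      ((k : ℝ) - 1) * (((k : ℝ) - 1) ^ x / ((x + 1).factorial : ℝ) *
        ((b * (4 + 5 * b * Real.log k)) / ((x : ℝ) + 2) * t)) := by
    rw [h6, pow_succ]
    field_simp
  rw [h7]
  exact mul_le_mul_of_nonneg_left (mul_le_mul_of_nonneg_left h5 (by positivity)) p3.le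

end Pool.Agent.TH173.RT
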