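import Pool.Agent.TH173.RT.Main

/-!
# A two-level blow-up
-/

set_option autoImplicit false
open Finset Filter Topology

namespace Pool.Agent.TH173.RT

/-- greedy choice -/
theorem hit_greedy {α β : Type} [DecidableEq α] [DecidableEq β] (U : Finset α) (C : Finset β)
    (R : β → α → Prop) (d : ℕ) (hC : 0 < C.card) (hdC : d ≤ C.card)
    [∀ b a, Decidable (R b a)]
    (hR : ∀ a ∈ U, d ≤ (C.filter fun b => R b a).card) : ∀ m : ℕ,
    ∃ T : Finset β, T ⊆ C ∧ T.card ≤ m ∧
      ((U.filter fun a => ∀ b ∈ T, ¬ R b a).card : ℝ) ≤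
        (U.card : ℝ) * (1 - (d : ℝ) / (C.card : ℝ)) ^ m := by
  intro m
  induction m with
  | zero => exact ⟨∅, empty_subset _, by simp, by simp⟩
  | succ m ih =>
    obtain ⟨T, hTC, hT, hu⟩ := ih
    set W := U.filter fun a => ∀ b ∈ T, ¬ R b a with hW
    have hpos : (0 : ℝ) < (C.card : ℝ) := by exact_mod_cast hC
    have hle : (d : ℝ) ≤ (C.card : ℝ) := by exact_mod_cast hdC
    have h1 : (W.card : ℝ) * (d : ℝ) ≤ ∑ b ∈ C, ((W.filter fun a => R b a).card : ℝ) := by
      have h2 : W.card * d ≤ ∑ b ∈ C, (W.filter fun a => R b a).card := by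
        simp only [card_filter]
        rw [sum_comm, ← smul_eq_mul, ← sum_const]
        apply sum_le_sum
        intro a ha
        rw [← card_filter]
        exact hR a (mem_filter.1 ha).1
      exact_mod_cast h2
    obtain ⟨b, hb, hle'⟩ : ∃ b ∈ C, ((W.card : ℝ) * (d : ℝ) / (C.card : ℝ)) ≤
        ((W.filter fun a => R b a).card : ℝ) := by
      apply exists_le_of_sum_le (card_pos.1 hC)
      rw [sum_const, nsmul_eq_mul, mul_div_cancel₀ _ hpos.ne']
      exact h1
    refine ⟨insert b T, insert_subset hb hTC, (card_insert_le _ _).trans (by omega), ?_⟩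
    have h3 : (U.filter fun a => ∀ b' ∈ insert b T, ¬ R b' a) = W.filter fun a => ¬ R b a := by
      ext a
      simp only [hW, mem_filter, mem_insert, forall_eq_or_imp]
      tauto
    have h4 := card_filter_add_card_filter_not (s := W) (fun a => R b a)
    have h5 : ((U.filter fun a => ∀ b' ∈ insert b T, ¬ R b' a).card : ℝ) =
        W.card - ((W.filter fun a => R b a).card : ℝ) := by
      rw [h3]
      have : ((W.filter fun a => R b a).card : ℝ) + ((W.filter fun a => ¬ R b a).card : ℝ) =
          W.card := by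
        exact_mod_cast h4
      linarith
    rw [h5, pow_succ]
    have h6 : (0 : ℝ) ≤ 1 - (d : ℝ) / (C.card : ℝ) := by
      rw [sub_nonneg, div_le_one hpos]
      exact hle
    calc (W.card : ℝ) - ((W.filter fun a => R b a).card : ℝ) ≤
        W.card - (W.card : ℝ) * (d : ℝ) / (C.card : ℝ) := by linarith
      _ = W.card * (1 - (d : ℝ) / (C.card : ℝ)) := by ring
      _ ≤ ((U.card : ℝ) * (1 - (d : ℝ) / (C.card : ℝ)) ^ m) *
          (1 - (d : ℝ) / (C.card : ℝ)) := mul_le_mul_of_nonneg_right hu h6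
      _ = _ := by ring

/-- **Hitting lemma.** -/
theorem hit {α β : Type} [DecidableEq α] [DecidableEq β] (U : Finset α) (C : Finset β)
    (R : β → α → Prop) (d : ℕ) (hd : 0 < d) (hC : 0 < C.card) (hdC : d ≤ C.card)
    [∀ b a, Decidable (R b a)]
    (hR : ∀ a ∈ U, d ≤ (C.filter fun b => R b a).card) (c : ℝ) (hc1 : 1 ≤ c)
    (hc : (U.card : ℝ) * d = C.card * c) :
    ∃ T : Finset β, T ⊆ C ∧ (∀ a ∈ U, ∃ b ∈ T, R b a) ∧
      (T.card : ℝ) ≤ (C.card : ℝ) / d * (1 + Real.log c) + 1 := by
  have hCr : (0 : ℝ) < (C.card : ℝ) := by exact_mod_cast hC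
  have hdr : (0 : ℝ) < (d : ℝ) := by exact_mod_cast hd
  have hle : (d : ℝ) ≤ (C.card : ℝ) := by exact_mod_cast hdC
  have hlog : 0 ≤ Real.log c := Real.log_nonneg hc1
  set q : ℝ := (d : ℝ) / (C.card : ℝ) with hq
  have hq0 : 0 < q := div_pos hdr hCr
  have hq1 : q ≤ 1 := by rw [hq, div_le_one hCr]; exact hle
  set m : ℕ := ⌈Real.log c / q⌉₊ with hm
  obtain ⟨T, hTC, hTm, hu⟩ := hit_greedy U C R d hC hdC hR m
  have hm1 : Real.log c / q ≤ m := Nat.le_ceil _
  have hm2 : (m : ℝ) ≤ Real.log c / q + 1 :=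
    (Nat.ceil_lt_add_one (div_nonneg hlog hq0.le)).le
  have hpow : (1 - q) ^ m ≤ 1 / c := by
    have h1 : (1 - q) ^ m ≤ (Real.exp (-q)) ^ m :=
      pow_le_pow_left₀ (by linarith) (Real.one_sub_le_exp_neg q) m
    have h2 : (Real.exp (-q)) ^ m = Real.exp (-(q * m)) := by
      rw [← Real.exp_nat_mul]
      congr 1
      ring
    have h3 : Real.log c ≤ q * m := by
      rw [div_le_iff₀ hq0] at hm1
      linarith
    rw [h2] at h1
    refine h1.trans ?_
    rw [one_div, ← Real.exp_log (show (0 : ℝ) < c by linarith), ← Real.exp_neg]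
    exact Real.exp_le_exp.2 (by linarith)
  set W := U.filter fun a => ∀ b ∈ T, ¬ R b a with hW
  have hunc : (W.card : ℝ) ≤ 1 / q := by
    refine hu.trans ?_
    have h1 : (U.card : ℝ) * (1 - q) ^ m ≤ (U.card : ℝ) * (1 / c) :=
      mul_le_mul_of_nonneg_left hpow (Nat.cast_nonneg _)
    refine h1.trans (le_of_eq ?_)
    rw [hq, one_div_div, mul_one_div, div_eq_div_iff (by linarith) hdr.ne']
    exact hc
  have hpick : ∀ a : α, ∃ b : β, a ∈ U → b ∈ C ∧ R b a := by
    intro a
    by_cases h : a ∈ U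
    · obtain ⟨b, hb⟩ := card_pos.1 (lt_of_lt_of_le hd (hR a h))
      exact ⟨b, fun _ => mem_filter.1 hb⟩
    · obtain ⟨b, _⟩ := card_pos.1 hC
      exact ⟨b, fun h' => absurd h' h⟩
  choose pick hpick using hpick
  refine ⟨T ∪ W.image pick, ?_, ?_, ?_⟩
  · apply union_subset hTC
    intro b hb
    obtain ⟨a, ha, rfl⟩ := mem_image.1 hb
    exact (hpick a (mem_filter.1 ha).1).1
  · intro a ha
    by_cases h : ∃ b ∈ T, R b a
    · obtain ⟨b, hb, hba⟩ := h
      exact ⟨b, mem_union_left _ hb, hba⟩
    · push Not at h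
      exact ⟨pick a, mem_union_right _ (mem_image_of_mem _ (mem_filter.2 ⟨ha, h⟩)),
        (hpick a ha).2⟩
  · have h1 : ((T ∪ W.image pick).card : ℝ) ≤ T.card + W.card := by
      have := (card_union_le T (W.image pick)).trans
        (Nat.add_le_add_left card_image_le T.card)
      exact_mod_cast this
    have h2 : (T.card : ℝ) ≤ m := by exact_mod_cast hTm
    have h3 : (C.card : ℝ) / (d : ℝ) = 1 / q := by rw [hq, one_div_div]
    rw [h3]
    have h4 : 1 / q * (1 + Real.log c) = 1 / q + Real.log c / q := by ring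
    rw [h4]
    linarith

/-- sets between two sets -/
theorem card_between {V : Type} [DecidableEq V] {e B : Finset V} {k : ℕ} (heB : e ⊆ B)
    (hk : e.card ≤ k) :
    ((B.powersetCard k).filter fun S => e ⊆ S).card = (B.card - e.card).choose (k - e.card) := by
  have h : (B.powersetCard k).filter (fun S => e ⊆ S) =
      (powersetCard (k - e.card) (B \ e)).image (fun X => e ∪ X) := by
    ext S
    simp only [mem_filter, mem_powersetCard, mem_image]
    constructor
    · rintro ⟨⟨h0, h1⟩, h2⟩
      refine ⟨S \ e, ⟨sdiff_subset_sdiff h0 (Subset.refl _), ?_⟩, union_sdiff_of_subset h2⟩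
      have := card_sdiff_add_card_eq_card h2
      omega
    · rintro ⟨X, ⟨h1, h2⟩, rfl⟩
      refine ⟨⟨union_subset heB (h1.trans sdiff_subset), ?_⟩, subset_union_left⟩
      rw [card_union_of_disjoint, h2]
      · omega
      · exact (disjoint_sdiff (s := e) (t := B)).mono_right h1
  rw [h, card_image_of_injOn, card_powersetCard]
  · have := card_sdiff_add_card_eq_card heB
    have h2 : (B \ e).card = B.card - e.card := by omega
    rw [h2]
  · intro X hX Y hY hXY
    rw [mem_coe, mem_powersetCard] at hX hY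
    have d1 := (disjoint_sdiff (s := e) (t := B)).mono_right hX.1
    have d2 := (disjoint_sdiff (s := e) (t := B)).mono_right hY.1
    have e1 : (e ∪ X) \ e = X := union_sdiff_cancel_left d1
    have e2 : (e ∪ Y) \ e = Y := union_sdiff_cancel_left d2
    simp only at hXY
    rw [← e1, ← e2, hXY]

/-- **Robust covering.** -/
theorem robust {N k s : ℕ} (hs : 2 ≤ s) (hsk : s ≤ k) (hkN : k ≤ N) :
    ∃ T : Finset (Finset (Fin N)), (∀ e ∈ T, e.card = s) ∧
      (∀ S : Finset (Fin N), S.card = k → ∀ P ⊆ S, P.card = 2 → ∃ e ∈ T, P ⊆ e ∧ e ⊆ S) ∧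
      (T.card : ℝ) ≤ (N.choose s : ℝ) / ((k - 2).choose (s - 2) : ℝ) *
        (1 + Real.log ((s.choose 2 : ℝ) * ((N - s).choose (k - s) : ℝ))) + 1 := by
  classical
  have hch : 0 < (k - 2).choose (s - 2) := Nat.choose_pos (by omega)
  have c0 : ((univ : Finset (Fin N)).powersetCard s).card = N.choose s := by
    rw [card_powersetCard, card_univ, Fintype.card_fin]
  have h1 : 1 ≤ (s.choose 2 : ℝ) * ((N - s).choose (k - s) : ℝ) := by
    have a1 : 0 < s.choose 2 := Nat.choose_pos hs
    have a2 : 0 < (N - s).choose (k - s) := Nat.choose_pos (by omega)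
    exact_mod_cast Nat.mul_pos a1 a2
  have id1 : k.choose s * s.choose 2 = k.choose 2 * (k - 2).choose (s - 2) := Nat.choose_mul hs
  have id2 : N.choose k * k.choose s = N.choose s * (N - s).choose (k - s) := Nat.choose_mul hsk
  obtain ⟨T, hTC, hT, hTc⟩ := hit
    (((univ : Finset (Fin N)).powersetCard k).sigma fun B => B.powersetCard 2)
    ((univ : Finset (Fin N)).powersetCard s)
    (fun (A : Finset (Fin N)) (a : Σ _ : Finset (Fin N), Finset (Fin N)) => a.2 ⊆ A ∧ A ⊆ a.1)
    ((k - 2).choose (s - 2)) hch (by rw [c0]; exact Nat.choose_pos (hsk.trans hkN)) (by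
      rw [c0]
      calc (k - 2).choose (s - 2) ≤ (N - 2).choose (s - 2) :=
            Nat.choose_le_choose _ (by omega)
        _ ≤ N.choose s := by
            have h3 : N.choose s * s.choose 2 = N.choose 2 * (N - 2).choose (s - 2) :=
              Nat.choose_mul hs
            have h4 : s.choose 2 ≤ N.choose 2 := Nat.choose_le_choose _ (hsk.trans hkN)
            have h5 : 0 < N.choose 2 := Nat.choose_pos (by omega)
            apply Nat.le_of_mul_le_mul_left _ h5
            rw [← h3]
            calc N.choose s * s.choose 2 ≤ N.choose s * N.choose 2 := Nat.mul_le_mul_left _ h4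
              _ = N.choose 2 * N.choose s := Nat.mul_comm _ _)
    (by
      rintro ⟨B, P⟩ ha
      rw [mem_sigma, mem_powersetCard, mem_powersetCard] at ha
      simp only at ha ⊢
      have h3 : ((univ : Finset (Fin N)).powersetCard s).filter (fun A => P ⊆ A ∧ A ⊆ B) =
          (B.powersetCard s).filter fun A => P ⊆ A := by
        ext A
        simp only [mem_filter, mem_powersetCard, subset_univ, true_and]
        tauto
      rw [h3, card_between ha.2.1 (by omega), ha.2.2, ha.1.2])
    ((s.choose 2 : ℝ) * ((N - s).choose (k - s) : ℝ)) h1 (by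
      rw [card_sigma]
      have h3 : ∀ B ∈ (univ : Finset (Fin N)).powersetCard k, (B.powersetCard 2).card =
          k.choose 2 := by
        intro B hB
        rw [card_powersetCard, (mem_powersetCard.1 hB).2]
      rw [sum_congr rfl h3, sum_const, smul_eq_mul, c0, card_powersetCard, card_univ,
        Fintype.card_fin]
      have h4 : N.choose k * k.choose 2 * (k - 2).choose (s - 2) =
          N.choose s * (s.choose 2 * (N - s).choose (k - s)) := by
        calc N.choose k * k.choose 2 * (k - 2).choose (s - 2) =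
            N.choose k * (k.choose 2 * (k - 2).choose (s - 2)) := by ring
          _ = (N.choose k * k.choose s) * s.choose 2 := by rw [← id1]; ring
          _ = _ := by rw [id2]; ring
      exact_mod_cast h4)
  refine ⟨T, fun e he => (mem_powersetCard.1 (hTC he)).2, ?_, ?_⟩
  · intro S hS P hPS hP
    exact hT ⟨S, P⟩ (mem_sigma.2 ⟨mem_powersetCard.2 ⟨subset_univ _, hS⟩,
      mem_powersetCard.2 ⟨hPS, hP⟩⟩)
  · rw [c0] at hTc
    exact hTc

end Pool.Agent.TH173.RT
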